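import Pool.Agent.U388.ITM.Defs

set_option autoImplicit false

namespace Pool.Agent.U388.ITM

open Pool.Agent.H175R2

theorem Subdivision.mono {W W' : Type} {H : SimpleGraph W} {H' : SimpleGraph W'} (e : H' ↪g H)
    {U : Type} {S : SimpleGraph U} (h : Subdivision H S) :
    ∃ (U' : Type) (S' : SimpleGraph U'), Subdivision H' S' ∧ Nonempty (S' ↪g S) := by
  induction h with
  | self => exact ⟨W', H', .self, ⟨e⟩⟩
  | @step U S u v huv h ih =>
    obtain ⟨U', S', hs, ⟨f⟩⟩ := ih
    by_cases hu : (∃ u', f u' = u) ∧ (∃ v', f v' = v)
    · obtain ⟨⟨u', rfl⟩, ⟨v', rfl⟩⟩ := hu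
      refine ⟨Option U', subdivideEdge S' u' v', .step (f.map_adj_iff.1 huv) hs,
        ⟨⟨f.toEmbedding.optionMap, ?_⟩⟩⟩
      rintro (_ | x) (_ | y)
      · simp
      · simp
      · simp
      · simp only [Function.Embedding.optionMap_apply, Option.map_some, sub_some_some,
          RelEmbedding.coe_toEmbedding, f.map_adj_iff, ne_eq, Sym2.eq_iff,
          EmbeddingLike.apply_eq_iff_eq]
    · refine ⟨U', S', hs, ⟨⟨f.toEmbedding.trans Function.Embedding.some, ?_⟩⟩⟩
      intro x y
      simp only [Function.Embedding.trans_apply, RelEmbedding.coe_toEmbedding,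
        Function.Embedding.some_apply, sub_some_some, f.map_adj_iff, ne_eq, Sym2.eq_iff,
        and_iff_left_iff_imp]
      rintro _ (⟨h1, h2⟩ | ⟨h1, h2⟩)
      · exact hu ⟨⟨x, h1⟩, ⟨y, h2⟩⟩
      · exact hu ⟨⟨y, h2⟩, ⟨x, h1⟩⟩

/-- The induced topological minor relation is monotone in the smaller graph. -/
theorem IsITM.mono {W W' V : Type} {H : SimpleGraph W} {H' : SimpleGraph W'} {G : SimpleGraph V}
    (e : H'.IsIndContained H) (h : IsITM H G) : IsITM H' G := by
  obtain ⟨U, S, hs, ⟨f⟩⟩ := h
  obtain ⟨e⟩ := e
  obtain ⟨U', S', hs', ⟨g⟩⟩ := hs.mono e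
  exact ⟨U', S', hs', ⟨g.trans f⟩⟩

theorem IsITM.of_ind {W V : Type} {H : SimpleGraph W} {G : SimpleGraph V}
    (e : H.IsIndContained G) : IsITM H G := ⟨W, H, .self, e⟩

theorem IsITM.trans_ind {W V V' : Type} {H : SimpleGraph W} {G : SimpleGraph V}
    {G' : SimpleGraph V'} (h : IsITM H G) (e : G.IsIndContained G') : IsITM H G' := by
  obtain ⟨U, S, hs, ⟨f⟩⟩ := h
  obtain ⟨e⟩ := e
  exact ⟨U, S, hs, ⟨f.trans e⟩⟩

theorem BddITM.mono {W W' : Type} {H : SimpleGraph W} {H' : SimpleGraph W'}
    (e : H'.IsIndContained H) (h : BddITM H) : BddITM H' := by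
  obtain ⟨c, hc⟩ := h
  exact ⟨c, fun V _ G hG => hc V G (fun h => hG (h.mono e))⟩

/-! ### invariants of subdivisions -/

/-- a vertex of degree at least four -/
def HasDeg4 {U : Type} (S : SimpleGraph U) : Prop :=
  ∃ (w : U) (f : Fin 4 → U), Function.Injective f ∧ ∀ i, S.Adj w (f i)

theorem hasDeg4_of_sub {W : Type} {H : SimpleGraph W} {U : Type} {S : SimpleGraph U}
    (h : Subdivision H S) (hH : HasDeg4 H) : HasDeg4 S := by
  classical
  induction h with
  | self => exact hH
  | @step U S u v huv h ih =>
    obtain ⟨w, f, hf, hw⟩ := ih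
    refine ⟨some w, fun i => if s(w, f i) = s(u, v) then none else some (f i), ?_, ?_⟩
    · intro i j hij
      simp only at hij
      split_ifs at hij with h1 h2 h2
      · rw [← h2] at h1
        exact hf (Sym2.congr_right.1 h1)
      · exact hf (Option.some_injective _ hij)
    · intro i
      dsimp only
      split_ifs with h1
      · rw [sub_some_none]
        rw [Sym2.eq_iff] at h1
        rcases h1 with h1 | h1
        · exact Or.inl h1.1
        · exact Or.inr h1.1
      · exact ⟨hw i, h1⟩

/-- three pairwise nonadjacent vertices -/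
def HasInd3 {U : Type} (S : SimpleGraph U) : Prop :=
  ∃ a b c : U, a ≠ b ∧ a ≠ c ∧ b ≠ c ∧ ¬ S.Adj a b ∧ ¬ S.Adj a c ∧ ¬ S.Adj b c

theorem hasInd3_of_sub {W : Type} {H : SimpleGraph W} {U : Type} {S : SimpleGraph U}
    (h : Subdivision H S) (hH : HasInd3 H) : HasInd3 S := by
  induction h with
  | self => exact hH
  | @step U S u v huv h ih =>
    obtain ⟨a, b, c, hab, hac, hbc, h1, h2, h3⟩ := ih
    exact ⟨some a, some b, some c, by simpa, by simpa, by simpa, fun h => h1 h.1, fun h => h2 h.1,
      fun h => h3 h.1⟩

/-- a vertex and a nonempty set of non-neighbours in which all degrees are at least two -/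
def HasFarCycle {U : Type} (S : SimpleGraph U) : Prop :=
  ∃ (x : U) (T : Set U), T.Nonempty ∧ x ∉ T ∧ (∀ t ∈ T, ¬ S.Adj x t) ∧
    ∀ t ∈ T, ∃ y ∈ T, ∃ z ∈ T, y ≠ z ∧ S.Adj t y ∧ S.Adj t z

theorem hasFarCycle_of_sub {W : Type} {H : SimpleGraph W} {U : Type} {S : SimpleGraph U}
    (h : Subdivision H S) (hH : HasFarCycle H) : HasFarCycle S := by
  classical
  induction h with
  | self => exact hH
  | @step U S u v huv h ih =>
    obtain ⟨x, T, ⟨t0, ht0⟩, hx, hn, hd⟩ := ih
    by_cases huvT : u ∈ T ∧ v ∈ T
    · obtain ⟨hu, hv⟩ := huvT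
      refine ⟨some x, insert none (some '' T), ⟨some t0, by simp [ht0]⟩, by simp [hx], ?_, ?_⟩
      · rintro t ht
        rw [Set.mem_insert_iff, Set.mem_image] at ht
        rcases ht with rfl | ⟨t, ht, rfl⟩
        · rw [sub_some_none]
          rintro (rfl | rfl)
          · exact hx hu
          · exact hx hv
        · exact fun h => hn t ht h.1
      · intro t ht
        rw [Set.mem_insert_iff, Set.mem_image] at ht
        rcases ht with rfl | ⟨t, ht, rfl⟩
        · exact ⟨some u, by simp [hu], some v, by simp [hv], by simpa using huv.ne, by simp, by simp⟩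
        · obtain ⟨y, hy, z, hz, hyz, h1, h2⟩ := hd t ht
          have key : ∀ y ∈ T, S.Adj t y →
              (if s(t, y) = s(u, v) then none else some y) ∈ insert none (some '' T) ∧
              (subdivideEdge S u v).Adj (some t) (if s(t, y) = s(u, v) then none else some y) := by
            intro y hy h1
            split_ifs with h3
            · refine ⟨by simp, ?_⟩
              rw [sub_some_none]
              rw [Sym2.eq_iff] at h3
              rcases h3 with h3 | h3
              · exact Or.inl h3.1
              · exact Or.inr h3.1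
            · exact ⟨by simp [hy], h1, h3⟩
          refine ⟨_, (key y hy h1).1, _, (key z hz h2).1, ?_, (key y hy h1).2, (key z hz h2).2⟩
          intro heq
          split_ifs at heq with h3 h4 h4
          · rw [← h4] at h3
            exact hyz (Sym2.congr_right.1 h3)
          · exact hyz (Option.some_injective _ heq)
    · refine ⟨some x, some '' T, ⟨some t0, by simp [ht0]⟩, by simp [hx], ?_, ?_⟩
      · rintro t ⟨t, ht, rfl⟩
        exact fun h => hn t ht h.1
      · rintro t ⟨t, ht, rfl⟩
        obtain ⟨y, hy, z, hz, hyz, h1, h2⟩ := hd t ht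
        have key : ∀ y ∈ T, S.Adj t y → (subdivideEdge S u v).Adj (some t) (some y) := by
          intro y hy h1
          refine ⟨h1, fun h3 => huvT ?_⟩
          rw [Sym2.eq_iff] at h3
          rcases h3 with ⟨rfl, rfl⟩ | ⟨rfl, rfl⟩
          · exact ⟨ht, hy⟩
          · exact ⟨hy, ht⟩
        exact ⟨some y, by simp [hy], some z, by simp [hz], by simpa using hyz, key y hy h1,
          key z hz h2⟩

/-- a partition into a clique and an independent set -/
def IsSplit {U : Type} (S : SimpleGraph U) : Prop :=
  ∃ K : Set U, (∀ x ∈ K, ∀ y ∈ K, x ≠ y → S.Adj x y) ∧ (∀ x, x ∉ K → ∀ y, y ∉ K → ¬ S.Adj x y)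

theorem isSplit_of_sub {W : Type} {H : SimpleGraph W} {U : Type} {S : SimpleGraph U}
    (h : Subdivision H S) (hS : IsSplit S) : IsSplit H := by
  classical
  induction h with
  | self => exact hS
  | @step U S u v huv h ih =>
    apply ih
    obtain ⟨K, hK, hI⟩ := hS
    have huv' : ¬ (subdivideEdge S u v).Adj (some u) (some v) := fun h => h.2 rfl
    by_cases hn : none ∈ K
    · -- the clique is `{none}` or `{none, a}` with `a = u` or `a = v`
      have key : ∀ a b : U, (a = u ∧ b = v) ∨ (a = v ∧ b = u) → some b ∉ K →
          IsSplit S := by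
        intro a b hab hb
        refine ⟨{a}, ?_, ?_⟩
        · rintro x rfl y rfl hxy
          exact absurd rfl hxy
        · intro x hx y hy hxy
          have hx' : some x ∉ K := by
            intro hxK
            have := hK none hn (some x) hxK (by simp)
            rw [sub_none_some] at this
            rcases hab with ⟨rfl, rfl⟩ | ⟨rfl, rfl⟩
            · rcases this with rfl | rfl
              · exact hx rfl
              · exact hb hxK
            · rcases this with rfl | rfl
              · exact hb hxK
              · exact hx rfl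
          have hy' : some y ∉ K := by
            intro hyK
            have := hK none hn (some y) hyK (by simp)
            rw [sub_none_some] at this
            rcases hab with ⟨rfl, rfl⟩ | ⟨rfl, rfl⟩
            · rcases this with rfl | rfl
              · exact hy rfl
              · exact hb hyK
            · rcases this with rfl | rfl
              · exact hb hyK
              · exact hy rfl
          refine hI _ hx' _ hy' ⟨hxy, fun h3 => ?_⟩
          rw [Sym2.eq_iff] at h3
          simp only [Set.mem_singleton_iff] at hx hy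
          rcases hab with ⟨rfl, rfl⟩ | ⟨rfl, rfl⟩
          · rcases h3 with h3 | h3
            · exact hx h3.1
            · exact hy h3.2
          · rcases h3 with h3 | h3
            · exact hy h3.2
            · exact hx h3.1
      by_cases hv : some v ∈ K
      · refine key v u (Or.inr ⟨rfl, rfl⟩) (fun hu => huv' (hK _ hu _ hv ?_))
        simpa using huv.ne
      · exact key u v (Or.inl ⟨rfl, rfl⟩) hv
    · exfalso
      have hu : some u ∈ K := by
        by_contra hu
        exact hI none hn (some u) hu (by simp)
      have hv : some v ∈ K := by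
        by_contra hv
        exact hI none hn (some v) hv (by simp)
      exact huv' (hK _ hu _ hv (by simpa using huv.ne))

/-- four vertices of degree at least three containing all triangles -/
def HasK4Frame {U : Type} (S : SimpleGraph U) : Prop :=
  ∃ b : Fin 4 → U, Function.Injective b ∧
    (∀ i, ∃ f : Fin 3 → U, Function.Injective f ∧ ∀ j, S.Adj (b i) (f j)) ∧
    ∀ x y z, S.Adj x y → S.Adj y z → S.Adj x z → ∃ i, b i = x

theorem hasK4Frame_of_sub {U : Type} {S : SimpleGraph U}
    (h : Subdivision (⊤ : SimpleGraph (Fin 4)) S) : HasK4Frame S := by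
  classical
  induction h with
  | self =>
    refine ⟨id, Function.injective_id, fun i => ⟨fun j => i.succAbove j, ?_, ?_⟩,
      fun x _ _ _ _ _ => ⟨x, rfl⟩⟩
    · exact Fin.succAbove_right_injective
    · intro j
      simp [Fin.ne_succAbove]
  | @step U S u v huv h ih =>
    obtain ⟨b, hb, hd, ht⟩ := ih
    refine ⟨fun i => some (b i), fun i j hij => hb (Option.some_injective _ hij), ?_, ?_⟩
    · intro i
      obtain ⟨f, hf, hw⟩ := hd i
      refine ⟨fun j => if s(b i, f j) = s(u, v) then none else some (f j), ?_, ?_⟩
      · intro i' j hij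
        simp only at hij
        split_ifs at hij with h1 h2 h2
        · rw [← h2] at h1
          exact hf (Sym2.congr_right.1 h1)
        · exact hf (Option.some_injective _ hij)
      · intro j
        dsimp only
        split_ifs with h1
        · rw [sub_some_none]
          rw [Sym2.eq_iff] at h1
          rcases h1 with h1 | h1
          · exact Or.inl h1.1
          · exact Or.inr h1.1
        · exact ⟨hw j, h1⟩
    · have huv' : ¬ (subdivideEdge S u v).Adj (some u) (some v) := fun h => h.2 rfl
      have huv'' : ¬ (subdivideEdge S u v).Adj (some v) (some u) := fun h => h.2 Sym2.eq_swap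
      have key : ∀ y z : Option U, (subdivideEdge S u v).Adj none y →
          (subdivideEdge S u v).Adj none z → ¬ (subdivideEdge S u v).Adj y z := by
        rintro (_ | y) (_ | z) h1 h2 h3
        · exact h1
        · exact h1
        · exact h2
        · rw [sub_none_some] at h1 h2
          rcases h1 with rfl | rfl <;> rcases h2 with rfl | rfl
          · exact (subdivideEdge S z v).loopless.irrefl _ h3
          · exact huv' h3
          · exact huv'' h3
          · exact (subdivideEdge S u z).loopless.irrefl _ h3
      rintro (_ | x) (_ | y) (_ | z) h1 h2 h3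
      · exact absurd h1 sub_none_none
      · exact absurd h1 sub_none_none
      · exact absurd h3 sub_none_none
      · exact absurd h2 (key _ _ h1 h3)
      · exact absurd h2 sub_none_none
      · exact absurd h3 (key _ _ h1.symm h2)
      · exact absurd h1 (key _ _ h3.symm h2.symm)
      · obtain ⟨i, hi⟩ := ht x y z h1.1 h2.1 h3.1
        exact ⟨i, congrArg some hi⟩

end Pool.Agent.U388.ITM
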