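import Pool.Agent.U388.ITM.Nec

set_option autoImplicit false

namespace Pool.Agent.U388.ITM

open Pool.Agent.H175R2

/-- symmetric Boolean matrix of a graph on four vertices -/
def mat4 (b01 b02 b03 b12 b13 b23 : Bool) (i j : Fin 4) : Bool :=
  match i.val, j.val with
  | 0, 1 => b01 | 1, 0 => b01 | 0, 2 => b02 | 2, 0 => b02 | 0, 3 => b03 | 3, 0 => b03
  | 1, 2 => b12 | 2, 1 => b12 | 1, 3 => b13 | 3, 1 => b13 | 2, 3 => b23 | 3, 2 => b23
  | _, _ => false

/-- the path -/
def tP : Fin 4 → Fin 4 → Bool := mat4 true false false true false true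
/-- the paw -/
def tW : Fin 4 → Fin 4 → Bool := mat4 true true true true false false
/-- the diamond -/
def tD : Fin 4 → Fin 4 → Bool := mat4 true true true true true false

theorem tP_iff : ∀ i j, (SimpleGraph.pathGraph 4).Adj i j ↔ tP i j = true := by
  intro i j
  rw [SimpleGraph.pathGraph_adj]
  revert i j
  decide

theorem tW_iff : ∀ i j, paw.Adj i j ↔ tW i j = true := by
  intro i j
  rw [paw, SimpleGraph.fromRel_adj]
  revert i j
  decide

theorem tD_iff : ∀ i j, diamond.Adj i j ↔ tD i j = true := by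
  intro i j
  rw [diamond, SimpleGraph.fromRel_adj]
  revert i j
  decide

/-- distinctness of four elements, Boolean -/
def dist4 (a b c d : Fin 4) : Bool :=
  a != b && a != c && a != d && b != c && b != d && c != d

/-- `t` restricted to `a, b, c, d` has the given matrix -/
def fits (t : Fin 4 → Fin 4 → Bool) (a b c d : Fin 4) (b01 b02 b03 b12 b13 b23 : Bool) : Bool :=
  t a b == b01 && t a c == b02 && t a d == b03 && t b c == b12 && t b d == b13 && t c d == b23

/-- the forbidden configurations on the vertices `a, b, c, d` -/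
def bad (m : Fin 4 → Fin 4 → Bool) (a b c d : Fin 4) : Bool :=
  (m a b && m a c && m a d && m b c && m b d && m c d) ||
  (!m a b && !m a c && !m b c) ||
  (m a b && m c d && !m a c && !m a d && !m b c && !m b d) ||
  (m a b && m b c && m c d && m d a && !m a c && !m b d) ||
  (m a b && m a c && m b c && !m d a && !m d b && !m d c)

theorem check4 : ∀ b01 b02 b03 b12 b13 b23 : Bool,
    (∃ a b c d : Fin 4, dist4 a b c d = true ∧
      bad (mat4 b01 b02 b03 b12 b13 b23) a b c d = true) ∨
    (∃ a b c d : Fin 4, dist4 a b c d = true ∧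
      (fits tP a b c d b01 b02 b03 b12 b13 b23 = true ∨
       fits tW a b c d b01 b02 b03 b12 b13 b23 = true ∨
       fits tD a b c d b01 b02 b03 b12 b13 b23 = true)) := by
  decide +kernel

/-- distinctness of three elements, Boolean -/
def dist3 (a b c : Fin 4) : Bool := a != b && a != c && b != c

theorem check3 : ∀ b01 b02 b12 : Bool, (b01 = false ∧ b02 = false ∧ b12 = false) ∨
    (∃ a b c : Fin 4, dist3 a b c = true ∧
      ((tP a b = b01 ∧ tP a c = b02 ∧ tP b c = b12) ∨ (tW a b = b01 ∧ tW a c = b02 ∧ tW b c = b12) ∨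
       (tD a b = b01 ∧ tD a c = b02 ∧ tD b c = b12))) := by
  decide +kernel

/-- one of the three graphs -/
def Listed {W : Type} (H : SimpleGraph W) : Prop :=
  H.IsIndContained (SimpleGraph.pathGraph 4) ∨ H.IsIndContained paw ∨ H.IsIndContained diamond

theorem listed_of_iso {W W' : Type} {H : SimpleGraph W} {H' : SimpleGraph W'} (e : H ≃g H')
    (h : Listed H') : Listed H := by
  have he : H.IsIndContained H' := ⟨e.toEmbedding⟩
  rcases h with h | h | h
  · exact Or.inl (he.trans h)
  · exact Or.inr (Or.inl (he.trans h))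
  · exact Or.inr (Or.inr (he.trans h))

open Classical in
theorem emb_of {n : ℕ} {H : SimpleGraph (Fin n)} {T : SimpleGraph (Fin 4)}
    {t : Fin 4 → Fin 4 → Bool} (ht : ∀ i j, T.Adj i j ↔ t i j = true) (f : Fin n → Fin 4)
    (hf : Function.Injective f) (h : ∀ i j, i < j → t (f i) (f j) = decide (H.Adj i j)) :
    H.IsIndContained T := by
  refine ⟨⟨⟨f, hf⟩, ?_⟩⟩
  have key : ∀ i j, i < j → (T.Adj (f i) (f j) ↔ H.Adj i j) := by
    intro i j hij
    rw [ht, h i j hij, decide_eq_true_eq]
  intro i j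
  simp only [Function.Embedding.coeFn_mk]
  rcases lt_trichotomy i j with hij | rfl | hij
  · exact key i j hij
  · simp
  · rw [T.adj_comm, H.adj_comm]
    exact key j i hij

open Classical in
theorem listed_four {H : SimpleGraph (Fin 4)} (h : Five H) : Listed H := by
  have hm : ∀ i j : Fin 4, mat4 (decide (H.Adj 0 1)) (decide (H.Adj 0 2)) (decide (H.Adj 0 3))
      (decide (H.Adj 1 2)) (decide (H.Adj 1 3)) (decide (H.Adj 2 3)) i j =
      decide (H.Adj i j) := by
    intro i j
    fin_cases i <;> fin_cases j <;>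
      first
      | (simp [mat4]; done)
      | (simp [mat4]; exact H.adj_comm _ _)
  rcases check4 (decide (H.Adj 0 1)) (decide (H.Adj 0 2)) (decide (H.Adj 0 3))
      (decide (H.Adj 1 2)) (decide (H.Adj 1 3)) (decide (H.Adj 2 3)) with h1 | h1
  · exfalso
    obtain ⟨a, b, c, d, hd, hb⟩ := h1
    simp only [dist4, Bool.and_eq_true, bne_iff_ne, ne_eq] at hd
    obtain ⟨⟨⟨⟨⟨hab, hac⟩, had⟩, hbc⟩, hbd⟩, hcd⟩ := hd
    simp only [bad, hm, Bool.or_eq_true, Bool.and_eq_true, decide_eq_true_eq, Bool.not_eq_true',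
      decide_eq_false_iff_not] at hb
    rcases hb with (((hb | hb) | hb) | hb) | hb
    · obtain ⟨⟨⟨⟨⟨x1, x2⟩, x3⟩, x4⟩, x5⟩, x6⟩ := hb
      exact h.k4 (K4_of x1 x2 x3 x4 x5 x6)
    · exact h.ind ⟨a, b, c, hab, hac, hbc, hb.1.1, hb.1.2, hb.2⟩
    · obtain ⟨⟨⟨⟨⟨x1, x2⟩, x3⟩, x4⟩, x5⟩, x6⟩ := hb
      obtain ⟨K, hK, hI⟩ := h.split
      have k1 : a ∈ K ∨ b ∈ K := by
        by_contra hcon
        push Not at hcon
        exact hI _ hcon.1 _ hcon.2 x1
      have k2 : c ∈ K ∨ d ∈ K := by
        by_contra hcon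
        push Not at hcon
        exact hI _ hcon.1 _ hcon.2 x2
      rcases k1 with k1 | k1 <;> rcases k2 with k2 | k2
      · exact x3 (hK _ k1 _ k2 hac)
      · exact x4 (hK _ k1 _ k2 had)
      · exact x5 (hK _ k1 _ k2 hbc)
      · exact x6 (hK _ k1 _ k2 hbd)
    · obtain ⟨⟨⟨⟨⟨x1, x2⟩, x3⟩, x4⟩, x5⟩, x6⟩ := hb
      obtain ⟨K, hK, hI⟩ := h.split
      have k1 : a ∉ K ∨ c ∉ K := by
        by_contra hcon
        push Not at hcon
        exact x5 (hK _ hcon.1 _ hcon.2 hac)
      have k2 : b ∉ K ∨ d ∉ K := by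
        by_contra hcon
        push Not at hcon
        exact x6 (hK _ hcon.1 _ hcon.2 hbd)
      rcases k1 with k1 | k1 <;> rcases k2 with k2 | k2
      · exact hI _ k1 _ k2 x1
      · exact hI _ k1 _ k2 x4.symm
      · exact hI _ k1 _ k2 x2.symm
      · exact hI _ k1 _ k2 x3
    · obtain ⟨⟨⟨⟨⟨x1, x2⟩, x3⟩, x4⟩, x5⟩, x6⟩ := hb
      apply h.far
      refine ⟨d, {a, b, c}, ⟨a, by simp⟩, by simp [Ne.symm had, Ne.symm hbd, Ne.symm hcd], ?_, ?_⟩
      · rintro t (rfl | rfl | rfl)
        · exact x4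
        · exact x5
        · exact x6
      · rintro t (rfl | rfl | rfl)
        · exact ⟨b, by simp, c, by simp, hbc, x1, x2⟩
        · exact ⟨a, by simp, c, by simp, hac, x1.symm, x3⟩
        · exact ⟨a, by simp, b, by simp, hab, x2.symm, x3.symm⟩
  · obtain ⟨a, b, c, d, hd, hf⟩ := h1
    simp only [dist4, Bool.and_eq_true, bne_iff_ne, ne_eq] at hd
    obtain ⟨⟨⟨⟨⟨hab, hac⟩, had⟩, hbc⟩, hbd⟩, hcd⟩ := hd
    have hinj : Function.Injective (![a, b, c, d] : Fin 4 → Fin 4) := by
      intro i j hij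
      fin_cases i <;> fin_cases j <;> simp_all
    have fin : ∀ (T : SimpleGraph (Fin 4)) (t : Fin 4 → Fin 4 → Bool)
        (_ : ∀ i j, T.Adj i j ↔ t i j = true),
        fits t a b c d (decide (H.Adj 0 1)) (decide (H.Adj 0 2)) (decide (H.Adj 0 3))
          (decide (H.Adj 1 2)) (decide (H.Adj 1 3)) (decide (H.Adj 2 3)) = true →
        H.IsIndContained T := by
      intro T t ht hfit
      simp only [fits, Bool.and_eq_true, beq_iff_eq] at hfit
      obtain ⟨⟨⟨⟨⟨x1, x2⟩, x3⟩, x4⟩, x5⟩, x6⟩ := hfit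
      refine emb_of ht ![a, b, c, d] hinj ?_
      intro i j hij
      fin_cases i <;> fin_cases j <;> first | exact absurd hij (by decide) | assumption
    rcases hf with hf | hf | hf
    · exact Or.inl (fin _ _ tP_iff hf)
    · exact Or.inr (Or.inl (fin _ _ tW_iff hf))
    · exact Or.inr (Or.inr (fin _ _ tD_iff hf))

open Classical in
theorem listed_three {H : SimpleGraph (Fin 3)} (h : Five H) : Listed H := by
  rcases check3 (decide (H.Adj 0 1)) (decide (H.Adj 0 2)) (decide (H.Adj 1 2)) with h1 | h1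
  · exfalso
    simp only [decide_eq_false_iff_not] at h1
    exact h.ind ⟨0, 1, 2, by decide, by decide, by decide, h1.1, h1.2.1, h1.2.2⟩
  · obtain ⟨a, b, c, hd, hf⟩ := h1
    simp only [dist3, Bool.and_eq_true, bne_iff_ne, ne_eq] at hd
    obtain ⟨⟨hab, hac⟩, hbc⟩ := hd
    have hinj : Function.Injective (![a, b, c] : Fin 3 → Fin 4) := by
      intro i j hij
      fin_cases i <;> fin_cases j <;> simp_all
    have fin : ∀ (T : SimpleGraph (Fin 4)) (t : Fin 4 → Fin 4 → Bool)
        (_ : ∀ i j, T.Adj i j ↔ t i j = true),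
        (t a b = decide (H.Adj 0 1) ∧ t a c = decide (H.Adj 0 2) ∧ t b c = decide (H.Adj 1 2)) →
        H.IsIndContained T := by
      rintro T t ht ⟨x1, x2, x3⟩
      refine emb_of ht ![a, b, c] hinj ?_
      intro i j hij
      fin_cases i <;> fin_cases j <;> first | exact absurd hij (by decide) | assumption
    rcases hf with hf | hf | hf
    · exact Or.inl (fin _ _ tP_iff hf)
    · exact Or.inr (Or.inl (fin _ _ tW_iff hf))
    · exact Or.inr (Or.inr (fin _ _ tD_iff hf))

open Classical in
theorem listed_small {n : ℕ} (hn : n ≤ 2) (H : SimpleGraph (Fin n)) : Listed H := by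
  left
  interval_cases n
  · exact emb_of tP_iff (fun i => i.elim0) (fun i => i.elim0) (fun i => i.elim0)
  · refine emb_of tP_iff (fun _ => 0) (fun i j _ => Subsingleton.elim i j) (fun i j hij => ?_)
    rw [Subsingleton.elim i j] at hij
    exact absurd hij (lt_irrefl _)
  · by_cases h : H.Adj 0 1
    · refine emb_of tP_iff ![0, 1] (by decide) ?_
      intro i j hij
      fin_cases i <;> fin_cases j <;> first | exact absurd hij (by decide) | skip
      simp [h]
      decide
    · refine emb_of tP_iff ![0, 2] (by decide) ?_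
      intro i j hij
      fin_cases i <;> fin_cases j <;> first | exact absurd hij (by decide) | skip
      simp [h]
      decide

theorem Five.comap {W W' : Type} {H : SimpleGraph W} {H' : SimpleGraph W'} (e : H' ↪g H)
    (h : Five H) : Five H' :=
  ⟨fun h' => h.deg (h'.map e), fun h' => h.k4 (h'.trans ⟨e⟩), fun h' => h.ind (h'.map e),
    h.split.comap e, fun h' => h.far (h'.map e)⟩

/-- Necessity. -/
theorem listed_of_bdd {W : Type} [Finite W] {H : SimpleGraph W} (hb : BddITM H) : Listed H := by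
  classical
  have := Fintype.ofFinite W
  have h5 := five_of_bdd hb
  have hc := five_card h5
  obtain ⟨n, hn⟩ : ∃ n, Fintype.card W = n := ⟨_, rfl⟩
  have e := Fintype.equivFinOfCardEq hn
  let H' : SimpleGraph (Fin n) := H.comap e.symm
  have i1 : H ≃g H' := (SimpleGraph.Iso.comap e.symm H).symm
  have h5' : Five H' := h5.comap i1.symm.toEmbedding
  apply listed_of_iso i1
  clear_value H'
  rw [hn] at hc
  clear i1 e
  rcases (by omega : n ≤ 2 ∨ n = 3 ∨ n = 4) with h | h | h
  · exact listed_small h H'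
  · subst h; exact listed_three h5'
  · subst h; exact listed_four h5'

end Pool.Agent.U388.ITM
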