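import Pool.Agent.H175R2.Defs

/-!
Definitions for MP_d0d08e_co: induced topological minors, and the classes of graphs excluding one.
-/

set_option autoImplicit false

namespace Pool.Agent.U388.ITM

open Pool.Agent.H175R2

/-- Subdividing the edge `uv` of `S` once: the edge `uv` is deleted and a new vertex `none` is
joined to `u` and to `v`. -/
def subdivideEdge {U : Type} (S : SimpleGraph U) (u v : U) : SimpleGraph (Option U) where
  Adj
    | some x, some y => S.Adj x y ∧ s(x, y) ≠ s(u, v)
    | none, some y => y = u ∨ y = v
    | some x, none => x = u ∨ x = v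
    | none, none => False
  symm := ⟨by
    rintro (_ | x) (_ | y) h
    · exact h
    · exact h
    · exact h
    · exact ⟨h.1.symm, fun h' => h.2 (by rw [Sym2.eq_swap]; exact h')⟩⟩
  loopless := ⟨by
    rintro (_ | x) h
    · exact h
    · exact S.loopless.irrefl x h.1⟩

/-- `Subdivision H S`: the graph `S` is obtained from `H` by subdividing edges, finitely many
times (equivalently, by replacing edges of `H` with internally vertex-disjoint paths). -/
inductive Subdivision {W : Type} (H : SimpleGraph W) : ∀ {U : Type}, SimpleGraph U → Prop
  | self : Subdivision H H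
  | step {U : Type} {S : SimpleGraph U} {u v : U} (huv : S.Adj u v) (h : Subdivision H S) :
      Subdivision H (subdivideEdge S u v)

/-- `H` is an induced topological minor of `G`: some induced subgraph of `G` is isomorphic to a
subdivision of `H`. -/
def IsITM {W V : Type} (H : SimpleGraph W) (G : SimpleGraph V) : Prop :=
  ∃ (U : Type) (S : SimpleGraph U), Subdivision H S ∧ S.IsIndContained G

/-- Clique-width is bounded on the class of finite graphs that do not contain `H` as an induced
topological minor. -/
def BddITM {W : Type} (H : SimpleGraph W) : Prop :=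
  ∃ c : ℕ, ∀ (V : Type) [Finite V] (G : SimpleGraph V), ¬ IsITM H G → cliqueWidth G ≤ c

section simps
variable {U : Type} {S : SimpleGraph U} {u v x y : U}

@[simp] lemma sub_some_some : (subdivideEdge S u v).Adj (some x) (some y) ↔
    S.Adj x y ∧ s(x, y) ≠ s(u, v) := Iff.rfl

@[simp] lemma sub_none_some : (subdivideEdge S u v).Adj none (some y) ↔ y = u ∨ y = v := Iff.rfl

@[simp] lemma sub_some_none : (subdivideEdge S u v).Adj (some x) none ↔ x = u ∨ x = v := Iff.rfl

@[simp] lemma sub_none_none : ¬ (subdivideEdge S u v).Adj none none := fun h => h

end simps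

end Pool.Agent.U388.ITM
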