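import Pool.Agent.U388.ITM.Struct

/-!
2-connected graphs without theta.
-/

set_option autoImplicit false

namespace Pool.Agent.U388.ITM

open Pool.Agent.H175R2 Finset Classical

variable {V : Type} {G : SimpleGraph V}

/-- no theta in `G` -/
def NoTheta (G : SimpleGraph V) : Prop :=
  ∀ (a b : V) (l1 l2 l3 : List V), ¬ Theta G a b l1 l2 l3

/-- the end of the connection `R` has exactly one neighbour on `Q` -/
lemma theta_one {v q : V} {A B R : List V} (hQ : PathL G (A ++ q :: B)) (hvQ : v ∉ A ++ q :: B)
    (hv : ∀ x ∈ A ++ q :: B, (G.Adj v x ↔ (A ++ q :: B).head? = some x ∨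
      (A ++ q :: B).getLast? = some x)) (hAB : A ≠ [] ∨ B ≠ [])
    (hR : PathL G R) (hRne : R ≠ []) (hRv : AH G v R) (hdis : ∀ x ∈ R, x ∉ A ++ q :: B)
    (hRq : ∀ x ∈ R, (G.Adj q x ↔ R.getLast? = some x))
    (hRA : ∀ x ∈ R, ∀ y ∈ A, ¬ G.Adj x y) (hRB : ∀ x ∈ R, ∀ y ∈ B, ¬ G.Adj x y) :
    Theta G q v A.reverse B R.reverse := by
  obtain ⟨e1, e2, e3⟩ := end_split hQ hvQ hv
  obtain ⟨s1, s2, s3, s4, s5⟩ := hQ.split
  refine ⟨fun h => hvQ (by simp [h]), pathL_reverse s1, s2, pathL_reverse hR, s3.rev, s4, ?_, e1.rev,
    e2, hRv.rev, s5.rev_left, ?_, ?_, ?_, ?_, ?_, ?_⟩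
  · refine AL.rev ⟨fun h => hdis q h (by simp), hRq⟩
  · refine (NA.symm (fun x hx y hy => ⟨?_, hRA x hx y hy⟩)).rev_left.rev_right
    rintro rfl
    exact hdis x hx (by simp [hy])
  · refine (NA.symm (fun x hx y hy => ⟨?_, hRB x hx y hy⟩)).rev_right
    rintro rfl
    exact hdis x hx (by simp [hy])
  · rw [G.adj_comm, e3]
    simp [hRne]
  · simpa using hAB
  · right; simpa using hRne
  · right; simpa using hRne

/-- the end of the connection has exactly two neighbours on `Q` and is not adjacent to `v` -/
lemma theta_two {v q1 q2 r : V} {A B C : List V} (hQ : PathL G (A ++ q1 :: (B ++ q2 :: C)))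
    (hvQ : v ∉ A ++ q1 :: (B ++ q2 :: C))
    (hv : ∀ x ∈ A ++ q1 :: (B ++ q2 :: C), (G.Adj v x ↔
      (A ++ q1 :: (B ++ q2 :: C)).head? = some x ∨
      (A ++ q1 :: (B ++ q2 :: C)).getLast? = some x))
    (hrQ : r ∉ A ++ q1 :: (B ++ q2 :: C)) (hr1 : G.Adj r q1) (hr2 : G.Adj r q2)
    (hrA : ∀ z ∈ A, ¬ G.Adj r z) (hrB : ∀ z ∈ B, ¬ G.Adj r z) (hrC : ∀ z ∈ C, ¬ G.Adj r z)
    (hrv : ¬ G.Adj r v) (hrv' : r ≠ v) :
    Theta G q1 q2 B [r] (A.reverse ++ v :: C.reverse) := by
  obtain ⟨s1, s2, s3, s4, s5⟩ := hQ.split
  obtain ⟨t1, t2, t3, t4, t5⟩ := s2.split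
  have hE : A ++ q1 :: (B ++ q2 :: C) = (A ++ q1 :: B) ++ q2 :: C := by simp
  obtain ⟨e1, e2, e3⟩ := end_split hQ hvQ hv
  rw [hE] at hQ hvQ hv
  obtain ⟨f1, f2, f3⟩ := end_split hQ hvQ hv
  obtain ⟨u1, u2, u3, u4, u5⟩ := hQ.split
  have hvB : ∀ z ∈ B, ¬ G.Adj v z := by
    intro z hz h
    have h1 := (e2.2 z (by simp [hz])).1 h
    rw [last_append_of_mem (z := q2) (by simp)] at h1
    have h2 := (pathL_append.1 s2).2.2 z hz z (mem_of_last h1)
    exact h2.1 rfl
  have hAC : NA G A C := s5.mono (fun _ h => h) (fun z hz => by simp [hz])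
  have hAB : NA G A B := s5.mono (fun _ h => h) (fun z hz => by simp [hz])
  have hBC : NA G B C := t5
  have hq12 : q1 ≠ q2 := fun h => s4.1 (by simp [h])
  have hvq1 : v ≠ q1 := fun h => hvQ (by simp [h])
  have hvq2 : v ≠ q2 := fun h => hvQ (by simp [h])
  refine ⟨hq12, t1, ⟨AH.nil, trivial⟩, ?_, s4.pre, ?_, ?_, t3, ?_, ?_, ?_, ?_, ?_, ?_, ?_, ?_, ?_⟩
  · refine PathL.join (pathL_reverse s1) (pathL_reverse t2) e1.rev ?_ hAC.rev_left.rev_right
    exact f2.rev
  · refine ⟨by simpa using hr1.ne', fun z hz => ?_⟩
    rw [List.mem_singleton] at hz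
    subst hz
    simpa using hr1.symm
  · refine ⟨?_, fun z hz => ?_⟩
    · intro h
      simp only [List.mem_append, List.mem_reverse, List.mem_cons] at h
      rcases h with h | h | h
      · exact s3.1 h
      · exact hvq1 h.symm
      · exact s4.1 (by simp [h])
    · simp only [List.mem_append, List.mem_reverse, List.mem_cons] at hz
      by_cases hA : A = []
      · subst hA
        simp only [List.reverse_nil, List.nil_append, List.head?_cons, Option.some.injEq]
        rcases hz with hz | rfl | hz
        · simp at hz
        · simp only [iff_true]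
          exact (e3.2 (Or.inl rfl)).symm
        · refine iff_of_false ?_ ?_
          · rw [s4.2 z (by simp [hz])]
            intro h
            cases B with
            | nil =>
              simp only [List.nil_append, List.head?_cons, Option.some.injEq] at h
              subst h
              exact t4.1 hz
            | cons b t =>
              simp only [List.cons_append, List.head?_cons, Option.some.injEq] at h
              subst h
              exact (hBC b (by simp) b hz).1 rfl
          · rintro rfl
            exact hvQ (by simp [hz])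
      · obtain ⟨a, ha⟩ : ∃ a, a ∈ A.reverse := List.exists_mem_of_ne_nil _ (by simpa using hA)
        rw [head_append_of_mem ha, List.head?_reverse]
        rcases hz with hz | rfl | hz
        · exact s3.2 z hz
        · refine iff_of_false ?_ (fun h => hvQ (by simp [mem_of_last h]))
          intro h
          rcases e3.1 h.symm with h1 | h1
          · exact hA h1
          · simp at h1
        · refine iff_of_false ?_ (fun h => (hAC z (mem_of_last h) z hz).1 rfl)
          rw [s4.2 z (by simp [hz])]
          intro h
          cases B with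
          | nil =>
            simp only [List.nil_append, List.head?_cons, Option.some.injEq] at h
            subst h
            exact t4.1 hz
          | cons b t =>
            simp only [List.cons_append, List.head?_cons, Option.some.injEq] at h
            subst h
            exact (hBC b (by simp) b hz).1 rfl
  · refine ⟨by simpa using hr2.ne', fun z hz => ?_⟩
    rw [List.mem_singleton] at hz
    subst hz
    simpa using hr2.symm
  · refine ⟨?_, fun z hz => ?_⟩
    · intro h
      simp only [List.mem_append, List.mem_reverse, List.mem_cons] at h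
      rcases h with h | h | h
      · exact u3.1 (by simp [h])
      · exact hvq2 h.symm
      · exact u4.1 h
    · simp only [List.mem_append, List.mem_reverse, List.mem_cons] at hz
      by_cases hC : C = []
      · subst hC
        simp only [List.reverse_nil, List.getLast?_append, List.getLast?_singleton,
          Option.some_or, Option.some.injEq]
        rcases hz with hz | rfl | hz
        · refine iff_of_false ?_ ?_
          · rw [u3.2 z (by simp [hz])]
            intro h
            rw [last_append_of_mem (z := q1) (by simp)] at h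
            exact (s5 z hz z (by
              have := mem_of_last h
              rw [List.mem_cons] at this
              rcases this with h | h
              · exfalso
                subst h
                exact s3.1 hz
              · simp [h])).1 rfl
          · rintro rfl
            exact hvQ (by simp [hz])
        · simp only [iff_true]
          exact (f3.2 (Or.inr rfl)).symm
        · simp at hz
      · obtain ⟨a, ha⟩ : ∃ a, a ∈ C := List.exists_mem_of_ne_nil _ hC
        have e : (A.reverse ++ v :: C.reverse).getLast? = C.head? := by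
          have : A.reverse ++ v :: C.reverse = (A.reverse ++ [v]) ++ C.reverse := by simp
          rw [this, last_append_of_mem (List.mem_reverse.2 ha), List.getLast?_reverse]
        rw [e]
        rcases hz with hz | rfl | hz
        · refine iff_of_false ?_ (fun h => (hAC z hz z (mem_of_head h)).1 rfl)
          rw [u3.2 z (by simp [hz])]
          intro h
          rw [last_append_of_mem (z := q1) (by simp)] at h
          exact (s5 z hz z (by
            have := mem_of_last h
            rw [List.mem_cons] at this
            rcases this with h | h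
            · exfalso
              subst h
              exact s3.1 hz
            · simp [h])).1 rfl
        · refine iff_of_false ?_ (fun h => hvQ (by simp [mem_of_head h]))
          intro h
          rcases f3.1 h.symm with h1 | h1
          · simp at h1
          · exact hC h1
        · exact u4.2 z hz
  · intro x hx y hy
    rw [List.mem_singleton] at hy
    subst hy
    exact ⟨fun h => hrQ (by simp [← h, hx]), fun h => hrB x hx h.symm⟩
  · intro x hx y hy
    simp only [List.mem_append, List.mem_reverse, List.mem_cons] at hy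
    rcases hy with hy | rfl | hy
    · exact hAB.symm x hx y hy
    · exact ⟨fun h => hvQ (by simp [← h, hx]), fun h => hvB x hx h.symm⟩
    · exact hBC x hx y hy
  · intro x hx y hy
    rw [List.mem_singleton] at hx
    subst hx
    simp only [List.mem_append, List.mem_reverse, List.mem_cons] at hy
    rcases hy with hy | rfl | hy
    · exact ⟨fun h => hrQ (by simp [h, hy]), hrA y hy⟩
    · exact ⟨hrv', hrv⟩
    · exact ⟨fun h => hrQ (by simp [h, hy]), hrC y hy⟩
  · rw [s4.2 q2 (by simp)]
    simp only [List.cons_ne_nil, List.append_eq_nil_iff, and_false, or_false]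
    cases B with
    | nil => simp
    | cons b t =>
      simp only [List.cons_append, List.head?_cons, Option.some.injEq, reduceCtorEq, iff_false]
      rintro rfl
      exact t3.1 (by simp)
  · right; simp
  · right; simp
  · left; simp

lemma pre_AH {v : V} {L C : List V} (hQ : PathL G (L ++ C)) (hC : C ≠ []) (hvQ : v ∉ L ++ C)
    (hv : ∀ x ∈ L ++ C, (G.Adj v x ↔ (L ++ C).head? = some x ∨ (L ++ C).getLast? = some x)) :
    AH G v L := by
  refine ⟨fun h => hvQ (by simp [h]), fun z hz => ?_⟩
  rw [hv z (by simp [hz]), head_append_of_mem hz]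
  constructor
  · rintro (h | h)
    · exact h
    · exfalso
      obtain ⟨c, hc⟩ : ∃ c, c ∈ C := List.exists_mem_of_ne_nil _ hC
      rw [last_append_of_mem hc] at h
      exact ((pathL_append.1 hQ).2.2 z hz z (mem_of_last h)).1 rfl
  · exact Or.inl

lemma suf_AL {v : V} {L C : List V} (hQ : PathL G (C ++ L)) (hC : C ≠ []) (hvQ : v ∉ C ++ L)
    (hv : ∀ x ∈ C ++ L, (G.Adj v x ↔ (C ++ L).head? = some x ∨ (C ++ L).getLast? = some x)) :
    AL G v L := by
  refine ⟨fun h => hvQ (by simp [h]), fun z hz => ?_⟩
  rw [hv z (by simp [hz]), last_append_of_mem hz]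
  constructor
  · rintro (h | h)
    · exfalso
      obtain ⟨c, hc⟩ : ∃ c, c ∈ C := List.exists_mem_of_ne_nil _ hC
      rw [head_append_of_mem hc] at h
      exact ((pathL_append.1 hQ).2.2 z (mem_of_head h) z hz).1 rfl
    · exact h
  · exact Or.inr

lemma exists_head {Q : List V} (h : Q ≠ []) : ∃ a, Q.head? = some a := by
  cases Q with
  | nil => exact absurd rfl h
  | cons a t => exact ⟨a, rfl⟩

lemma exists_last {Q : List V} (h : Q ≠ []) : ∃ a, Q.getLast? = some a := by
  obtain ⟨a, ha⟩ := exists_head (Q := Q.reverse) (by simpa using h)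
  exact ⟨a, by rwa [List.head?_reverse] at ha⟩

/-- In a 2-connected graph without theta, a neighbourhood with two nonadjacent vertices has no
other vertex. -/
lemma nbr_struct [Fintype V] (h2 : TwoConn G) (hT : NoTheta G) {v u w t : V} (hu : G.Adj v u)
    (hw : G.Adj v w) (huw : u ≠ w) (hnuw : ¬ G.Adj u w) (ht : G.Adj v t) : t = u ∨ t = w := by
  by_contra hcon
  push Not at hcon
  obtain ⟨htu, htw⟩ := hcon
  have hY := h2.del v
  obtain ⟨Q, q1, q2, q3, q4, q5⟩ := exists_path (G := G) (fun x => x = w) (univ.erase v).card
    (fun x => x = u) (univ.erase v) rfl hY ⟨u, by simp [hu.ne'], rfl⟩ ⟨w, by simp [hw.ne'], rfl⟩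
  have hvQ : v ∉ Q := fun h => by simpa using q2 v h
  have hQu : Q.head? = some u := by
    obtain ⟨a, ha⟩ := exists_head q1
    have h := (q4 a (mem_of_head ha)).2 ha
    rw [ha, h]
  have hQw : Q.getLast? = some w := by
    obtain ⟨a, ha⟩ := exists_last q1
    have h := (q5 a (mem_of_last ha)).2 ha
    rw [ha, h]
  have huQ := mem_of_head hQu
  have hwQ := mem_of_last hQw
  have hvends : ∀ x ∈ Q, (G.Adj v x ↔ Q.head? = some x ∨ Q.getLast? = some x) := by
    intro x hx
    rw [hQu, hQw]
    simp only [Option.some.injEq]
    constructor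
    · intro hvx
      by_contra hcon
      push Not at hcon
      obtain ⟨hxu, hxw⟩ := hcon
      rcases nbr_cases (fun z => G.Adj v z) Q with h | h | h | h
      · exact h x hx hvx
      · obtain ⟨A, q, B, rfl, _, hA, hB⟩ := h
        have key : ∀ z ∈ A ++ q :: B, G.Adj v z → z = q := by
          intro z hz hvz
          rw [List.mem_append, List.mem_cons] at hz
          rcases hz with h | h | h
          · exact absurd hvz (hA z h)
          · exact h
          · exact absurd hvz (hB z h)
        exact huw ((key u huQ hu).trans (key w hwQ hw).symm)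
      · obtain ⟨A, a1, B, a2, C, rfl, _, _, hA, hB, hC⟩ := h
        have key : ∀ z ∈ A ++ a1 :: (B ++ a2 :: C), G.Adj v z → z = a1 ∨ z = a2 := by
          intro z hz hvz
          rw [List.mem_append, List.mem_cons, List.mem_append, List.mem_cons] at hz
          rcases hz with h | h | h | h | h
          · exact absurd hvz (hA z h)
          · exact Or.inl h
          · exact absurd hvz (hB z h)
          · exact Or.inr h
          · exact absurd hvz (hC z h)
        rcases key u huQ hu with h1 | h1 <;> rcases key w hwQ hw with h2 | h2 <;>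
          rcases key x hx hvx with h3 | h3
        · exact huw (h1.trans h2.symm)
        · exact huw (h1.trans h2.symm)
        · exact hxu (h1.trans h3.symm)
        · exact hxw (h2.trans h3.symm)
        · exact hxw (h2.trans h3.symm)
        · exact hxu (h1.trans h3.symm)
        · exact huw (h1.trans h2.symm)
        · exact huw (h1.trans h2.symm)
      · obtain ⟨A, n1, B, n2, C, n3, D, hE, h1, h2, h3, hB, hC⟩ := h
        exact hT _ _ _ _ _ (fan q3 hvQ hE h1 h2 h3 hB hC)
    · rintro (rfl | rfl) <;> assumption
  have htQ : t ∉ Q := fun h => by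
    have h1 := (hvends t h).1 ht
    rw [hQu, hQw] at h1
    simp only [Option.some.injEq] at h1
    rcases h1 with h1 | h1
    · exact htu h1.symm
    · exact htw h1.symm
  have htS : t ∈ (univ.erase v) \ Q.toFinset := by simp [htQ, ht.ne']
  have hZ := cn_cpt (G := G) htS
  have hZs : cpt G ((univ.erase v) \ Q.toFinset) t ⊆ (univ.erase v) \ Q.toFinset := cpt_subset
  obtain ⟨z, hz, y, hy, hzy⟩ := hY.2 (cpt G ((univ.erase v) \ Q.toFinset) t)
    (hZs.trans sdiff_subset) ⟨t, mem_cpt_self htS⟩ ⟨u, by
      refine mem_sdiff.2 ⟨by simp [hu.ne'], fun h => ?_⟩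
      have := hZs h
      simp [huQ] at this⟩
  have hyQ : y ∈ Q := by
    by_contra hyQ
    obtain ⟨hy1, hy2⟩ := mem_sdiff.1 hy
    exact not_adj_cpt htS hz (mem_sdiff.2 ⟨hy1, by simpa using hyQ⟩) hy2 hzy
  obtain ⟨R, r1, r2, r3, r4, r5⟩ := exists_path (G := G) (fun x => ∃ q ∈ Q, G.Adj x q) _
    (fun x => G.Adj v x) _ rfl hZ ⟨t, mem_cpt_self htS, ht⟩ ⟨z, hz, y, hyQ, hzy⟩
  obtain ⟨r, hr⟩ := exists_last r1
  have hrR := mem_of_last hr
  have hdis : ∀ x ∈ R, x ∉ Q ∧ x ≠ v := by
    intro x hx
    have := hZs (r2 x hx)
    simp only [mem_sdiff, mem_erase, mem_univ, and_true, List.mem_toFinset] at this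
    exact ⟨this.2, this.1⟩
  have hvR : v ∉ R := fun h => (hdis v h).2 rfl
  have hlast : ∀ x ∈ R, ∀ q ∈ Q, G.Adj x q → x = r := by
    intro x hx q hq hxq
    have := (r5 x hx).1 ⟨q, hq, hxq⟩
    rw [hr, Option.some.injEq] at this
    exact this.symm
  rcases nbr_cases (fun z => G.Adj r z) Q with h | h | h | h
  · obtain ⟨q, hq, hrq⟩ := (r5 r hrR).2 hr
    exact h q hq hrq
  · obtain ⟨A, q, B, rfl, hq, hA, hB⟩ := h
    refine hT _ _ _ _ _ (theta_one q3 hvQ hvends ?_ r3 r1 ⟨hvR, r4⟩ (fun x hx => (hdis x hx).1)
      ?_ ?_ ?_)
    · by_contra hcon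
      push Not at hcon
      obtain ⟨rfl, rfl⟩ := hcon
      simp only [List.nil_append, List.head?_cons, List.getLast?_singleton, Option.some.injEq]
        at hQu hQw
      exact huw (hQu.symm.trans hQw)
    · intro x hx
      rw [hr, Option.some.injEq]
      constructor
      · intro h; exact (hlast x hx q (by simp) h.symm).symm
      · rintro rfl; exact hq.symm
    · intro x hx y hy hxy
      have := hlast x hx y (by simp [hy]) hxy
      subst this
      exact hA y hy hxy
    · intro x hx y hy hxy
      have := hlast x hx y (by simp [hy]) hxy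
      subst this
      exact hB y hy hxy
  · obtain ⟨A, a1, B, a2, C, rfl, ha1, ha2, hA, hB, hC⟩ := h
    by_cases hrv : G.Adj r v
    · by_cases hCne : C = []
      · subst hCne
        by_cases hAne : A = []
        · subst hAne
          have e1 : a1 = u := by simpa using hQu
          have e2 : a2 = w := by
            rw [List.nil_append, ← List.cons_append, last_append_of_mem (z := a2) (by simp)] at hQw
            simpa using hQw
          subst e1 e2
          refine hT v r [] [a1] [a2] ⟨hrv.ne', trivial, ⟨AH.nil, trivial⟩, ⟨AH.nil, trivial⟩,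
            AH.nil, ?_, ?_, AL.nil, ?_, ?_, NA.nil_left, NA.nil_left, ?_, ?_, ?_, ?_, ?_⟩
          · exact ⟨by simpa using hu.ne, by simpa using hu⟩
          · exact ⟨by simpa using hw.ne, by simpa using hw⟩
          · exact ⟨by simpa using ha1.ne, by simpa using ha1⟩
          · exact ⟨by simpa using ha2.ne, by simpa using ha2⟩
          · intro x hx y hy
            rw [List.mem_singleton] at hx hy
            rw [hx, hy]
            exact ⟨huw, hnuw⟩
          · simpa using hrv.symm
          · right; simp
          · right; simp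
          · left; simp
        · have hal := suf_AL q3 hAne hvQ hvends
          have hp : PathL G ((a1 :: (B ++ [a2])) ++ [v]) :=
            PathL.join q3.right trivial hal AH.nil NA.nil_right
          refine hT _ _ _ _ _ (fan (x := r) (A := []) (n1 := a1) (B := B) (n2 := a2) (C := [])
            (n3 := v) (D := []) hp ?_ (by simp) ha1 ha2 hrv hB (by simp))
          intro h
          rw [List.mem_append, List.mem_singleton] at h
          rcases h with h | h
          · exact (hdis r hrR).1 (List.mem_append_right _ h)
          · exact (hdis r hrR).2 h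
      · have hE : A ++ a1 :: (B ++ a2 :: C) = (A ++ a1 :: (B ++ [a2])) ++ C := by simp
        rw [hE] at q3 hvQ hvends
        have hah := pre_AH q3 hCne hvQ hvends
        have hp : PathL G (v :: (A ++ a1 :: (B ++ [a2]))) := ⟨hah, q3.left⟩
        refine hT _ _ _ _ _ (fan (x := r) (A := []) (n1 := v) (B := A) (n2 := a1) (C := B)
            (n3 := a2) (D := []) hp ?_ (by simp) hrv ha1 ha2 hA hB)
        intro h
        rw [List.mem_cons] at h
        rcases h with h | h
        · exact (hdis r hrR).2 h
        · refine (hdis r hrR).1 ?_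
          rw [hE]
          exact List.mem_append_left _ h
    · exact hT _ _ _ _ _ (theta_two q3 hvQ hvends (hdis r hrR).1 ha1 ha2 hA hB hC hrv
        (hdis r hrR).2)
  · obtain ⟨A, n1, B, n2, C, n3, D, hE, h1, h2, h3, hB, hC⟩ := h
    exact hT _ _ _ _ _ (fan q3 (hdis r hrR).1 hE h1 h2 h3 hB hC)

/-- 2-connected graphs without theta are complete graphs or cycles. -/
theorem noTheta_struct [Fintype V] (h2 : TwoConn G) (hT : NoTheta G) :
    (∀ y, (univ.filter (fun z => G.Adj y z)).card ≤ 2) ∨ P4Free G univ := by
  by_cases hd : ∀ y, (univ.filter (fun z => G.Adj y z)).card ≤ 2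
  · exact Or.inl hd
  right
  push Not at hd
  obtain ⟨v, hv⟩ := hd
  have key : ∀ y, 2 < (univ.filter (fun z => G.Adj y z)).card →
      ∀ a b, G.Adj y a → G.Adj y b → a ≠ b → G.Adj a b := by
    intro y hy a b ha hb hab
    by_contra hnab
    have hsub : univ.filter (fun z => G.Adj y z) ⊆ {a, b} := by
      intro z hz
      have := nbr_struct h2 hT ha hb hab hnab (mem_filter.1 hz).2
      simpa using this
    have := (card_le_card hsub).trans card_le_two
    omega
  -- the closed neighbourhood of `v` is everything
  have hall : ∀ x, x = v ∨ G.Adj v x := by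
    by_contra hcon
    push Not at hcon
    obtain ⟨x0, hx0, hx0'⟩ := hcon
    obtain ⟨x, hx, y, hy, hxy⟩ := h2.conn.2 (insert v (univ.filter (fun z => G.Adj v z)))
      (subset_univ _) ⟨v, by simp⟩ ⟨x0, by simp [hx0, hx0']⟩
    rw [mem_insert, mem_filter] at hx
    simp only [mem_sdiff, mem_univ, mem_insert, mem_filter, true_and, not_or] at hy
    rcases hx with rfl | ⟨_, hx⟩
    · exact hy.2 hxy
    · have hdx : 2 < (univ.filter (fun z => G.Adj x z)).card := by
        refine lt_of_lt_of_le hv ?_
        have hins : insert v ((univ.filter (fun z => G.Adj v z)).erase x) ⊆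
            univ.filter (fun z => G.Adj x z) := by
          intro z hz
          rw [mem_insert, mem_erase, mem_filter] at hz
          rw [mem_filter]
          refine ⟨mem_univ _, ?_⟩
          rcases hz with rfl | ⟨h1, _, h3⟩
          · exact hx.symm
          · exact key v hv x z hx h3 (Ne.symm h1)
        refine le_trans ?_ (card_le_card hins)
        rw [card_insert_of_notMem (by simp), card_erase_of_mem (by simp [hx])]
        omega
      exact hy.2 (key x hdx v y hx.symm hxy (Ne.symm hy.1))
  intro a _ b _ c _ d _ hac _ _ _ _ _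
  left
  rcases hall a with rfl | ha
  · rcases hall c with rfl | hc
    · exact absurd rfl hac
    · exact hc
  · rcases hall c with rfl | hc
    · exact ha.symm
    · exact key v hv a c ha hc hac

end Pool.Agent.U388.ITM
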