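import Pool.Agent.U388.ITM.Basic
import Pool.Agent.R36.CwBase

/-!
A family of graphs of maximum degree three, without induced subdivisions of `K_4`, of unbounded
clique-width: every vertex lies in exactly one triangle and has at most one other neighbour.
-/

set_option autoImplicit false

namespace Pool.Agent.U388.ITM

open Finset Classical Pool.Agent.H175R2 Pool.Agent.R36

/-- the vertices -/
abbrev TV (n : ℕ) : Type := Fin n × Fin n × Fin 3

/-- in the same triangle -/
def mate {n : ℕ} (p q : TV n) : Prop := p.1 = q.1 ∧ p.2.1 = q.2.1 ∧ p.2.2 ≠ q.2.2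

/-- the edges outside the triangles -/
def outer {n : ℕ} (p q : TV n) : Prop :=
  (p.1 = q.1 ∧ p.2.1.val + 1 = q.2.1.val ∧ p.2.2 = 1 ∧ q.2.2 = 0) ∨
  (q.1 = p.1 ∧ q.2.1.val + 1 = p.2.1.val ∧ q.2.2 = 1 ∧ p.2.2 = 0) ∨
  (p.2.2 = 2 ∧ q.2.2 = 2 ∧ p.1 = q.2.1 ∧ p.2.1 = q.1 ∧ p.1 ≠ p.2.1)

theorem mate_symm {n : ℕ} {p q : TV n} (h : mate p q) : mate q p := ⟨h.1.symm, h.2.1.symm, h.2.2.symm⟩

theorem outer_symm {n : ℕ} {p q : TV n} (h : outer p q) : outer q p := by
  rcases h with h | h | ⟨h1, h2, h3, h4, h5⟩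
  · exact Or.inr (Or.inl h)
  · exact Or.inl h
  · exact Or.inr (Or.inr ⟨h2, h1, h4.symm, h3.symm, by rw [← h3, ← h4]; exact h5.symm⟩)

theorem not_outer_self {n : ℕ} (p : TV n) : ¬ outer p p := by
  rintro (h | h | h)
  · have := h.2.1; omega
  · have := h.2.1; omega
  · exact h.2.2.2.2 h.2.2.1

theorem outer_fun {n : ℕ} {p q q' : TV n} (h : outer p q) (h' : outer p q') : q = q' := by
  obtain ⟨a, b, c⟩ := p
  obtain ⟨a1, b1, c1⟩ := q
  obtain ⟨a2, b2, c2⟩ := q'
  simp only [outer] at h h'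
  have h10 : (1 : Fin 3) ≠ 0 := by decide
  have h12 : (1 : Fin 3) ≠ 2 := by decide
  have h02 : (0 : Fin 3) ≠ 2 := by decide
  rcases h with ⟨e1, e2, e3, e4⟩ | ⟨e1, e2, e3, e4⟩ | ⟨e1, e2, e3, e4, e5⟩ <;>
    rcases h' with ⟨f1, f2, f3, f4⟩ | ⟨f1, f2, f3, f4⟩ | ⟨f1, f2, f3, f4, f5⟩
  · subst e1 f1 e4 f4
    have : b1 = b2 := Fin.ext (by omega)
    rw [this]
  · exact absurd (e3.symm.trans f4) h10
  · exact absurd (e3.symm.trans f1) h12
  · exact absurd (f3.symm.trans e4) h10
  · subst e1 f1 e3 f3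
    have : b1 = b2 := Fin.ext (by omega)
    rw [this]
  · exact absurd (e4.symm.trans f1) h02
  · exact absurd (f3.symm.trans e1) h12
  · exact absurd (f4.symm.trans e1) h02
  · subst e2 f2 e3 e4
    rw [← f3, ← f4]

/-- the graph -/
def famTri (n : ℕ) : SimpleGraph (TV n) where
  Adj p q := mate p q ∨ outer p q
  symm := ⟨fun p q h => h.imp mate_symm outer_symm⟩
  loopless := ⟨fun p h => h.elim (fun h => h.2.2 rfl) (not_outer_self p)⟩

/-- the number of a neighbour -/
noncomputable def num {n : ℕ} (p q : TV n) : Fin 3 := if mate p q then q.2.2 else p.2.2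

theorem num_inj {n : ℕ} {p q q' : TV n} (h : (famTri n).Adj p q) (h' : (famTri n).Adj p q')
    (he : num p q = num p q') : q = q' := by
  unfold num at he
  split_ifs at he with h1 h2 h2
  · exact Prod.ext (h1.1.symm.trans h2.1) (Prod.ext (h1.2.1.symm.trans h2.2.1) he)
  · exact absurd he.symm h1.2.2
  · exact absurd he h2.2.2
  · exact outer_fun (h.resolve_left h1) (h'.resolve_left h2)

theorem not_deg4 (n : ℕ) : ¬ HasDeg4 (famTri n) := by
  rintro ⟨w, f, hf, hw⟩
  have : Function.Injective (fun i => num w (f i)) := fun i j hij => hf (num_inj (hw i) (hw j) hij)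
  have := Fintype.card_le_of_injective _ this
  simp at this

/-- an embedded graph with a `K_4` frame is impossible -/
theorem not_frame {n : ℕ} {U : Type} {S : SimpleGraph U} (hS : HasK4Frame S) (e : S ↪g famTri n) :
    False := by
  obtain ⟨b, hb, hd, ht⟩ := hS
  -- all three vertices of the triangle of `e (b i)` are of this form
  have key : ∀ i, ∀ c : Fin 3, ∃ j, e (b j) = ((e (b i)).1, (e (b i)).2.1, c) := by
    intro i c
    by_cases hc : c = (e (b i)).2.2
    · exact ⟨i, by rw [hc]⟩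
    obtain ⟨f, hf, hw⟩ := hd i
    have hinj : Function.Injective (fun j => num (e (b i)) (e (f j))) := fun j j' hij =>
      hf (e.injective (num_inj (e.map_adj_iff.2 (hw j)) (e.map_adj_iff.2 (hw j')) hij))
    have hsurj := Finite.injective_iff_surjective.1 hinj
    -- the neighbour with number `c`
    have mk : ∀ c : Fin 3, c ≠ (e (b i)).2.2 →
        ∃ j, e (f j) = ((e (b i)).1, (e (b i)).2.1, c) := by
      intro c hc
      obtain ⟨j, hj⟩ := hsurj c
      refine ⟨j, ?_⟩
      simp only [num] at hj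
      split_ifs at hj with h1
      · exact Prod.ext h1.1.symm (Prod.ext h1.2.1.symm hj)
      · exact absurd hj.symm hc
    obtain ⟨c', hc', hcc'⟩ : ∃ c' : Fin 3, c' ≠ (e (b i)).2.2 ∧ c' ≠ c := by
      have : ∀ x y : Fin 3, ∃ z, z ≠ x ∧ z ≠ y := by decide
      exact this _ _
    obtain ⟨j, hj⟩ := mk c hc
    obtain ⟨j', hj'⟩ := mk c' hc'
    have hadj : S.Adj (f j) (f j') := by
      rw [← e.map_adj_iff, hj, hj']
      exact Or.inl ⟨rfl, rfl, hcc'.symm⟩
    obtain ⟨l, hl⟩ := ht (f j) (f j') (b i) hadj (hw j').symm (hw j).symm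
    exact ⟨l, by rw [hl, hj]⟩
  -- fibres of the map to the triangles
  let φ : Fin 4 → Fin n × Fin n := fun i => ((e (b i)).1, (e (b i)).2.1)
  have hcard : ∀ i, 3 ≤ (univ.filter (fun j => φ j = φ i)).card := by
    intro i
    choose g hg using key i
    have hinj : Function.Injective g := by
      intro c c' hcc
      have h1 := hg c
      rw [hcc, hg c'] at h1
      simpa using h1.symm
    have : (univ.image g).card = 3 := by
      rw [card_image_of_injective _ hinj]; simp
    rw [← this]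
    apply card_le_card
    intro j hj
    obtain ⟨c, _, rfl⟩ := mem_image.1 hj
    simp only [mem_filter, mem_univ, true_and, φ]
    rw [hg c]
  have hle : ∀ i, (univ.filter (fun j => φ j = φ i)).card ≤ 3 := by
    intro i
    have : (univ : Finset (Fin 3)).card = 3 := by simp
    rw [← this]
    apply card_le_card_of_injOn (fun j => (e (b j)).2.2) (fun _ _ => mem_univ _)
    intro j hj j' hj' hjj
    simp only [coe_filter, mem_univ, true_and, Set.mem_ofPred_eq, φ, Prod.mk.injEq] at hj hj'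
    apply hb
    apply e.injective
    exact Prod.ext (hj.1.trans hj'.1.symm) (Prod.ext (hj.2.trans hj'.2.symm) hjj)
  obtain ⟨i, hi⟩ : ∃ i, φ i ≠ φ 0 := by
    by_contra hcon
    push Not at hcon
    have h1 := hle 0
    rw [filter_true_of_mem (fun j _ => hcon j)] at h1
    simp at h1
  have hdis : Disjoint (univ.filter (fun j => φ j = φ 0)) (univ.filter (fun j => φ j = φ i)) := by
    rw [Finset.disjoint_left]
    intro j hj hj'
    simp only [mem_filter, mem_univ, true_and] at hj hj'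
    exact hi (hj'.symm.trans hj)
  have h4 := card_le_univ (univ.filter (fun j => φ j = φ 0) ∪ univ.filter (fun j => φ j = φ i))
  rw [card_union_of_disjoint hdis, Fintype.card_fin] at h4
  have := hcard 0
  have := hcard i
  omega

theorem not_itm_K4 (n : ℕ) : ¬ IsITM (⊤ : SimpleGraph (Fin 4)) (famTri n) := by
  rintro ⟨U, S, hs, ⟨e⟩⟩
  exact not_frame (hasK4Frame_of_sub hs) e

/-! ### unbounded clique-width -/

theorem row_cross {n : ℕ} {A : Set (TV n)} {i : Fin n} (h1 : ∃ j c, (i, j, c) ∈ A)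
    (h2 : ∃ j c, (i, j, c) ∉ A) :
    ∃ x y : TV n, x.1 = i ∧ y.1 = i ∧ x ∈ A ∧ y ∉ A ∧ (famTri n).Adj x y := by
  by_cases hmix : ∃ j c c', (i, j, c) ∈ A ∧ (i, j, c') ∉ A
  · obtain ⟨j, c, c', h3, h4⟩ := hmix
    refine ⟨(i, j, c), (i, j, c'), rfl, rfl, h3, h4, Or.inl ⟨rfl, rfl, ?_⟩⟩
    rintro h
    simp only at h
    rw [h] at h3
    exact h4 h3
  · push Not at hmix
    obtain ⟨a, b, ha, hb, hab⟩ := CutAux.step_exists (fun j => (i, j, (0 : Fin 3)) ∈ A)
      (by obtain ⟨j, c, h⟩ := h1; exact ⟨j, hmix j c 0 h⟩)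
      (by obtain ⟨j, c, h⟩ := h2; exact ⟨j, fun h' => h (hmix j 0 c h')⟩)
    rcases hab with hab | hab
    · refine ⟨(i, a, 1), (i, b, 0), rfl, rfl, hmix _ _ _ ha, hb, Or.inr (Or.inl ?_)⟩
      exact ⟨rfl, hab, rfl, rfl⟩
    · refine ⟨(i, a, 0), (i, b, 1), rfl, rfl, ha, fun h => hb (hmix _ _ _ h),
        Or.inr (Or.inr (Or.inl ?_))⟩
      exact ⟨rfl, hab, rfl, rfl⟩

theorem famTri_unbounded : ∀ c N : ℕ, ∃ n ≥ N, ∀ k ≤ c, ¬ CwLE (famTri n) k := by
  intro c N
  refine ⟨N + 30 * c + 30, by omega, fun k hk hcw => ?_⟩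
  set n := N + 30 * c + 30 with hn
  have hW : (Set.univ : Set (TV n)).ncard = n * (n * 3) := by
    rw [Set.ncard_univ, Nat.card_eq_fintype_card]
    simp [TV, Fintype.card_prod]
  obtain ⟨A, hT, h1, h2⟩ := balanced_cut (famTri n) k hcw Set.univ (by rw [hW]; nlinarith)
  rw [hW, Set.inter_univ] at h1 h2
  have hcompl : A.ncard + Aᶜ.ncard = n * (n * 3) := by
    rw [Set.ncard_add_ncard_compl, ← Set.ncard_univ, hW]
  let M : Finset (Fin n) := univ.filter (fun i => (∃ j c, (i, j, c) ∈ A) ∧ (∃ j c, (i, j, c) ∉ A))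
  let P : Finset (Fin n) := univ.filter (fun i => ∀ j c, (i, j, c) ∈ A)
  let Q : Finset (Fin n) := univ.filter (fun i => ∀ j c, (i, j, c) ∉ A)
  -- few mixed rows
  have hM : M.card ≤ k := by
    have hex : ∀ i : Fin n, ∃ x y : TV n, i ∈ M → x.1 = i ∧ y.1 = i ∧ x ∈ A ∧ y ∉ A ∧
        (famTri n).Adj x y := by
      intro i
      by_cases hi : i ∈ M
      · simp only [M, mem_filter, mem_univ, true_and] at hi
        obtain ⟨x, y, h⟩ := row_cross hi.1 hi.2
        exact ⟨x, y, fun _ => h⟩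
      · exact ⟨(i, i, 0), (i, i, 0), fun h => absurd h hi⟩
    choose X Y hXY using hex
    refine types_chain hT M X Y (fun i hi => (hXY i hi).2.2.1) (fun i hi => (hXY i hi).2.2.2.1)
      (fun i hi => (hXY i hi).2.2.2.2) ?_
    rintro s hs t ht hst ⟨hst1, hst2⟩
    obtain ⟨x1, y1, xA, yA, _⟩ := hXY s hs
    obtain ⟨x2, y2, xA', yA', _⟩ := hXY t ht
    have o : ∀ p q : TV n, p.1 ≠ q.1 → (famTri n).Adj p q →
        p.2.2 = 2 ∧ q.2.2 = 2 ∧ p.1 = q.2.1 ∧ p.2.1 = q.1 := by
      rintro p q hpq (h | h | h | h)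
      · exact absurd h.1 hpq
      · exact absurd h.1 hpq
      · exact absurd h.1.symm hpq
      · exact ⟨h.1, h.2.1, h.2.2.1, h.2.2.2.1⟩
    have o1 := o _ _ (by rw [x1, y2]; exact hst) hst1
    have o2 := o _ _ (by rw [x2, y1]; exact hst.symm) hst2
    apply yA'
    have : Y t = X t := by
      refine Prod.ext (by rw [y2, x2]) (Prod.ext ?_ ?_)
      · rw [← o1.2.2.1, x1, o2.2.2.2, y1]
      · rw [o1.2.1, o2.1]
    rw [this]; exact xA'
  have hPQ : (P ×ˢ Q).card ≤ k := by
    refine types_chain hT (P ×ˢ Q) (fun p => (p.1, p.2, 2)) (fun p => (p.2, p.1, 2)) ?_ ?_ ?_ ?_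
    · rintro ⟨i, j⟩ h
      rw [mem_product] at h
      simp only [P, mem_filter, mem_univ, true_and] at h
      exact h.1 _ _
    · rintro ⟨i, j⟩ h
      rw [mem_product] at h
      simp only [Q, mem_filter, mem_univ, true_and] at h
      exact h.2 _ _
    · rintro ⟨i, j⟩ h
      rw [mem_product] at h
      simp only [P, Q, mem_filter, mem_univ, true_and] at h
      refine Or.inr (Or.inr (Or.inr ⟨rfl, rfl, rfl, rfl, ?_⟩))
      rintro hij
      simp only at hij
      rw [hij] at h
      exact h.2 _ _ (h.1 j 0)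
    · rintro ⟨i, j⟩ _ ⟨i', j'⟩ _ hne ⟨h, _⟩
      rcases h with h | h | h | h
      · exact h.2.2 rfl
      · exact absurd h.2.2.1 (by decide : (2 : Fin 3) ≠ 1)
      · exact absurd h.2.2.1 (by decide : (2 : Fin 3) ≠ 1)
      · exact hne (Prod.ext h.2.2.1 h.2.2.2.1)
  rw [card_product] at hPQ
  have hsum : M.card + P.card + Q.card = n := by
    have e1 : Disjoint M P := by
      rw [Finset.disjoint_left]
      intro i hi hi'
      simp only [M, P, mem_filter, mem_univ, true_and] at hi hi'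
      obtain ⟨j, c, h⟩ := hi.2
      exact h (hi' j c)
    have e2 : Disjoint (M ∪ P) Q := by
      rw [Finset.disjoint_left]
      intro i hi hi'
      simp only [M, P, Q, mem_union, mem_filter, mem_univ, true_and] at hi hi'
      rcases hi with hi | hi
      · obtain ⟨j, c, h⟩ := hi.1
        exact hi' j c h
      · exact hi' i 0 (hi i 0)
    rw [← card_union_of_disjoint e1, ← card_union_of_disjoint e2]
    have : M ∪ P ∪ Q = univ := by
      ext i
      simp only [M, P, Q, mem_union, mem_filter, mem_univ, true_and, iff_true]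
      by_cases h3 : ∃ j c, (i, j, c) ∈ A
      · by_cases h4 : ∃ j c, (i, j, c) ∉ A
        · exact Or.inl (Or.inl ⟨h3, h4⟩)
        · push Not at h4
          exact Or.inl (Or.inr h4)
      · push Not at h3
        exact Or.inr h3
    rw [this]; simp
  have hAle : A.ncard ≤ (M.card + P.card) * (n * 3) := by
    have : A ⊆ (((M ∪ P) ×ˢ (univ : Finset (Fin n × Fin 3)) : Finset (TV n)) : Set (TV n)) := by
      rintro ⟨i, j, c⟩ h
      simp only [coe_product, Set.mem_prod, mem_coe, mem_union, M, P, mem_filter, mem_univ,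
        true_and, and_true]
      by_cases h4 : ∃ j c, (i, j, c) ∉ A
      · exact Or.inl ⟨⟨j, c, h⟩, h4⟩
      · push Not at h4
        exact Or.inr h4
    refine (Set.ncard_le_ncard this (Set.toFinite _)).trans ?_
    rw [Set.ncard_coe_finset, card_product]
    refine Nat.mul_le_mul (card_union_le _ _) ?_
    simp
  have hBle : Aᶜ.ncard ≤ (M.card + Q.card) * (n * 3) := by
    have : Aᶜ ⊆ (((M ∪ Q) ×ˢ (univ : Finset (Fin n × Fin 3)) : Finset (TV n)) : Set (TV n)) := by
      rintro ⟨i, j, c⟩ h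
      simp only [coe_product, Set.mem_prod, mem_coe, mem_union, M, Q, mem_filter, mem_univ,
        true_and, and_true]
      by_cases h4 : ∃ j c, (i, j, c) ∈ A
      · exact Or.inl ⟨h4, ⟨j, c, h⟩⟩
      · push Not at h4
        exact Or.inr h4
    refine (Set.ncard_le_ncard this (Set.toFinite _)).trans ?_
    rw [Set.ncard_coe_finset, card_product]
    refine Nat.mul_le_mul (card_union_le _ _) ?_
    simp
  -- arithmetic
  have hn3 : 0 < n * 3 := by omega
  have a1 : n ≤ 3 * (M.card + P.card) := by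
    have : n * (n * 3) ≤ (3 * (M.card + P.card)) * (n * 3) := by
      calc n * (n * 3) ≤ 3 * A.ncard := h1
        _ ≤ 3 * ((M.card + P.card) * (n * 3)) := Nat.mul_le_mul_left _ hAle
        _ = _ := by ring
    exact Nat.le_of_mul_le_mul_right this hn3
  have a2 : n ≤ 3 * (M.card + Q.card) := by
    have : n * (n * 3) ≤ (3 * (M.card + Q.card)) * (n * 3) := by
      calc n * (n * 3) ≤ 3 * Aᶜ.ncard := by omega
        _ ≤ 3 * ((M.card + Q.card) * (n * 3)) := Nat.mul_le_mul_left _ hBle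
        _ = _ := by ring
    exact Nat.le_of_mul_le_mul_right this hn3
  have b1 : 9 * k + 10 ≤ P.card := by omega
  have b2 : 9 * k + 10 ≤ Q.card := by omega
  have : (9 * k + 10) * (9 * k + 10) ≤ k := (Nat.mul_le_mul b1 b2).trans hPQ
  nlinarith

end Pool.Agent.U388.ITM
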