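import Pool.Agent.U388.ITM.FamTri
import Pool.Agent.H175R2.Fam

/-!
Necessity: if clique-width is bounded on the graphs without `H` as an induced topological minor
then `H` is an induced subgraph of `P_4`, the paw or the diamond.
-/

set_option autoImplicit false

namespace Pool.Agent.U388.ITM

open Finset Classical Pool.Agent.H175R2 Pool.Agent.R36

theorem itm_of_unbounded {W : Type} {H : SimpleGraph W} (hb : BddITM H) {V : ℕ → Type}
    [∀ n, Finite (V n)] (fam : ∀ n, SimpleGraph (V n)) (N : ℕ) (hne : ∀ n ≥ N, Nonempty (V n))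
    (hu : ∀ c N : ℕ, ∃ n ≥ N, ∀ k ≤ c, ¬ CwLE (fam n) k) : ∃ n ≥ N, IsITM H (fam n) := by
  obtain ⟨c, hc⟩ := hb
  obtain ⟨n, hn, hk⟩ := hu c N
  refine ⟨n, hn, ?_⟩
  by_contra hno
  have h1 := hc (V n) (fam n) hno
  have := hne n hn
  exact hk _ h1 (Pool.Agent.R36.cwLE_cliqueWidth (fam n))

theorem cobip_no_ind3 (n : ℕ) : ¬ HasInd3 (famCobip n) := by
  rintro ⟨a, b, c, hab, hac, hbc, h1, h2, h3⟩
  simp only [famCobip, SimpleGraph.fromRel_adj, not_and, not_or] at h1 h2 h3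
  have h1 := h1 hab
  have h2 := h2 hac
  have h3 := h3 hbc
  rcases a with a | a <;> rcases b with b | b <;> rcases c with c | c <;> simp_all

theorem HasInd3.map {U V : Type} {S : SimpleGraph U} {G : SimpleGraph V} (e : S ↪g G)
    (h : HasInd3 S) : HasInd3 G := by
  obtain ⟨a, b, c, hab, hac, hbc, h1, h2, h3⟩ := h
  exact ⟨e a, e b, e c, fun h => hab (e.injective h), fun h => hac (e.injective h),
    fun h => hbc (e.injective h), by rwa [e.map_adj_iff], by rwa [e.map_adj_iff],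
    by rwa [e.map_adj_iff]⟩

theorem HasDeg4.map {U V : Type} {S : SimpleGraph U} {G : SimpleGraph V} (e : S ↪g G)
    (h : HasDeg4 S) : HasDeg4 G := by
  obtain ⟨w, f, hf, hw⟩ := h
  exact ⟨e w, fun i => e (f i), fun i j hij => hf (e.injective hij),
    fun i => by rw [e.map_adj_iff]; exact hw i⟩

theorem HasFarCycle.map {U V : Type} {S : SimpleGraph U} {G : SimpleGraph V} (e : S ↪g G)
    (h : HasFarCycle S) : HasFarCycle G := by
  obtain ⟨x, T, ⟨t0, ht0⟩, hx, hn, hd⟩ := h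
  refine ⟨e x, e '' T, ⟨e t0, t0, ht0, rfl⟩, ?_, ?_, ?_⟩
  · rintro ⟨t, ht, h⟩
    exact hx (e.injective h ▸ ht)
  · rintro _ ⟨t, ht, rfl⟩
    rw [e.map_adj_iff]
    exact hn t ht
  · rintro _ ⟨t, ht, rfl⟩
    obtain ⟨y, hy, z, hz, hyz, h1, h2⟩ := hd t ht
    exact ⟨e y, ⟨y, hy, rfl⟩, e z, ⟨z, hz, rfl⟩, fun h => hyz (e.injective h),
      by rwa [e.map_adj_iff], by rwa [e.map_adj_iff]⟩

theorem IsSplit.comap {U V : Type} {S : SimpleGraph U} {G : SimpleGraph V} (e : S ↪g G)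
    (h : IsSplit G) : IsSplit S := by
  obtain ⟨K, hK, hI⟩ := h
  refine ⟨e ⁻¹' K, ?_, ?_⟩
  · intro x hx y hy hxy
    rw [← e.map_adj_iff]
    exact hK _ hx _ hy (fun h => hxy (e.injective h))
  · intro x hx y hy
    rw [← e.map_adj_iff]
    exact hI _ hx _ hy

theorem famSplit_isSplit (n : ℕ) : IsSplit (famSplit n) := by
  refine ⟨{x | ∃ a, x = Sum.inl a}, ?_, ?_⟩
  · rintro _ ⟨a, rfl⟩ _ ⟨b, rfl⟩ h
    rw [famSplit, SimpleGraph.fromRel_adj]
    exact ⟨h, Or.inl (Or.inl ⟨a, b, rfl, rfl⟩)⟩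
  · rintro (x | x) hx (y | y) hy
    · exact absurd ⟨x, rfl⟩ hx
    · exact absurd ⟨x, rfl⟩ hx
    · exact absurd ⟨y, rfl⟩ hy
    · rw [famSplit, SimpleGraph.fromRel_adj]
      simp

/-- adjacency in the complement of the truncated complete graph -/
theorem trunc_adj' {n : ℕ} (x y : {p : Fin n × Fin n // p.1 ≠ p.2}) :
    (famTrunc n).Adj x y ↔ x ≠ y ∧ ¬ (x.1.1 = y.1.1 ∨ (x.1.1 = y.1.2 ∧ x.1.2 = y.1.1)) := by
  rw [famTrunc, SimpleGraph.fromRel_adj]
  constructor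
  · rintro ⟨h, h1 | h1⟩
    · exact ⟨h, h1⟩
    · refine ⟨h, fun h2 => h1 ?_⟩
      rcases h2 with h2 | h2
      · exact Or.inl h2.symm
      · exact Or.inr ⟨h2.2.symm, h2.1.symm⟩
  · rintro ⟨h, h1⟩
    exact ⟨h, Or.inl h1⟩

theorem trunc_no_far (n : ℕ) : ¬ HasFarCycle (famTrunc n) := by
  rintro ⟨x, T, ⟨t0, ht0⟩, hx, hn, hd⟩
  -- the non-neighbours of `x`
  have hT : ∀ t ∈ T, t.1.1 = x.1.1 ∨ (t.1.1 = x.1.2 ∧ t.1.2 = x.1.1) := by
    intro t ht
    have h1 := hn t ht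
    rw [trunc_adj'] at h1
    push Not at h1
    have h2 := h1 (fun h => hx (h ▸ ht))
    rcases h2 with h2 | h2
    · exact Or.inl h2.symm
    · exact Or.inr ⟨h2.2.symm, h2.1.symm⟩
  -- a vertex of the first kind has only one possible neighbour
  have key : ∀ t ∈ T, t.1.1 = x.1.1 → False := by
    intro t ht h1
    obtain ⟨y, hy, z, hz, hyz, h2, h3⟩ := hd t ht
    rw [trunc_adj'] at h2 h3
    have hy' := (hT y hy).resolve_left (fun h => h2.2 (Or.inl (h1.trans h.symm)))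
    have hz' := (hT z hz).resolve_left (fun h => h3.2 (Or.inl (h1.trans h.symm)))
    exact hyz (Subtype.ext (Prod.ext (hy'.1.trans hz'.1.symm) (hy'.2.trans hz'.2.symm)))
  obtain ⟨y, hy, z, hz, hyz, h2, h3⟩ := hd t0 ht0
  have hy' := (hT y hy).resolve_left (key y hy)
  have hz' := (hT z hz).resolve_left (key z hz)
  exact hyz (Subtype.ext (Prod.ext (hy'.1.trans hz'.1.symm) (hy'.2.trans hz'.2.symm)))

/-- the properties forced by the families -/
structure Five {W : Type} (H : SimpleGraph W) : Prop where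
  deg : ¬ HasDeg4 H
  k4 : ¬ (⊤ : SimpleGraph (Fin 4)).IsIndContained H
  ind : ¬ HasInd3 H
  split : IsSplit H
  far : ¬ HasFarCycle H

theorem five_of_bdd {W : Type} {H : SimpleGraph W} (hb : BddITM H) : Five H := by
  obtain ⟨n1, -, U1, S1, hs1, ⟨e1⟩⟩ := itm_of_unbounded hb famTri 1
    (fun n hn => ⟨(⟨0, by omega⟩, ⟨0, by omega⟩, 0)⟩) famTri_unbounded
  obtain ⟨n2, -, U2, S2, hs2, ⟨e2⟩⟩ := itm_of_unbounded hb famCobip 1
    (fun n hn => ⟨Sum.inl ⟨0, by omega⟩⟩) famCobip_unbounded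
  obtain ⟨n3, -, U3, S3, hs3, ⟨e3⟩⟩ := itm_of_unbounded hb famSplit 1
    (fun n hn => ⟨Sum.inl ⟨0, by omega⟩⟩) famSplit_unbounded
  obtain ⟨n4, -, U4, S4, hs4, ⟨e4⟩⟩ := itm_of_unbounded hb famTrunc 2
    (fun n hn => ⟨⟨(⟨0, by omega⟩, ⟨1, by omega⟩), by simp⟩⟩) famTrunc_unbounded
  refine ⟨fun h => not_deg4 n1 ((hasDeg4_of_sub hs1 h).map e1), fun h => ?_,
    fun h => cobip_no_ind3 n2 ((hasInd3_of_sub hs2 h).map e2),
    isSplit_of_sub hs3 ((famSplit_isSplit n3).comap e3),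
    fun h => trunc_no_far n4 ((hasFarCycle_of_sub hs4 h).map e4)⟩
  exact not_itm_K4 n1 (IsITM.mono h ⟨U1, S1, hs1, ⟨e1⟩⟩)

theorem K4_of {W : Type} {H : SimpleGraph W} {a b c d : W} (h1 : H.Adj a b) (h2 : H.Adj a c)
    (h3 : H.Adj a d) (h4 : H.Adj b c) (h5 : H.Adj b d) (h6 : H.Adj c d) :
    (⊤ : SimpleGraph (Fin 4)).IsIndContained H := by
  have hadj : ∀ i j : Fin 4, i ≠ j → H.Adj (![a, b, c, d] i) (![a, b, c, d] j) := by
    intro i j hij
    fin_cases i <;> fin_cases j <;>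
      first
      | exact absurd rfl hij
      | assumption
      | exact SimpleGraph.Adj.symm (by assumption)
  refine ⟨⟨⟨![a, b, c, d], ?_⟩, ?_⟩⟩
  · intro i j hij
    by_contra hne
    have := hadj i j hne
    rw [hij] at this
    exact H.loopless.irrefl _ this
  · intro i j
    simp only [Function.Embedding.coeFn_mk, SimpleGraph.top_adj]
    constructor
    · rintro h rfl
      exact H.loopless.irrefl _ h
    · exact hadj i j

theorem five_card {W : Type} [Fintype W] {H : SimpleGraph W} (h : Five H) :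
    Fintype.card W ≤ 4 := by
  obtain ⟨K, hK, hI⟩ := h.split
  have hK3 : (univ.filter (fun x => x ∈ K)).card ≤ 3 := by
    by_contra hc
    push Not at hc
    obtain ⟨t, ht, ht4⟩ := exists_subset_card_eq hc
    obtain ⟨a, b, c, d, hab, hac, had, hbc, hbd, hcd, rfl⟩ := card_eq_four.1 ht4
    have m : ∀ x ∈ ({a, b, c, d} : Finset W), x ∈ K := fun x hx => (mem_filter.1 (ht hx)).2
    have ma := m a (by simp)
    have mb := m b (by simp)
    have mc := m c (by simp)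
    have md := m d (by simp)
    exact h.k4 (K4_of (hK _ ma _ mb hab) (hK _ ma _ mc hac) (hK _ ma _ md had) (hK _ mb _ mc hbc)
      (hK _ mb _ md hbd) (hK _ mc _ md hcd))
  have hI2 : (univ.filter (fun x => ¬ x ∈ K)).card ≤ 2 := by
    by_contra hc
    push Not at hc
    obtain ⟨a, ha, b, hb, c, hc, hab, hac, hbc⟩ := two_lt_card.1 hc
    rw [mem_filter] at ha hb hc
    exact h.ind ⟨a, b, c, hab, hac, hbc, hI _ ha.2 _ hb.2, hI _ ha.2 _ hc.2, hI _ hb.2 _ hc.2⟩
  have hsum := card_filter_add_card_filter_not (s := (univ : Finset W)) (fun x => x ∈ K)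
  rw [card_univ] at hsum
  by_contra hcon
  have hK3' : (univ.filter (fun x => x ∈ K)).card = 3 := by omega
  have hI2' : (univ.filter (fun x => ¬ x ∈ K)).card = 2 := by omega
  obtain ⟨a, b, c, hab, hac, hbc, he⟩ := card_eq_three.1 hK3'
  obtain ⟨x, y, hxy, he'⟩ := card_eq_two.1 hI2'
  have ma : a ∈ K := (mem_filter.1 (by rw [he]; simp : a ∈ univ.filter (fun x => x ∈ K))).2
  have mb : b ∈ K := (mem_filter.1 (by rw [he]; simp : b ∈ univ.filter (fun x => x ∈ K))).2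
  have mc : c ∈ K := (mem_filter.1 (by rw [he]; simp : c ∈ univ.filter (fun x => x ∈ K))).2
  have mx : x ∉ K := (mem_filter.1 (by rw [he']; simp : x ∈ univ.filter (fun x => ¬ x ∈ K))).2
  have my : y ∉ K := (mem_filter.1 (by rw [he']; simp : y ∈ univ.filter (fun x => ¬ x ∈ K))).2
  have nxy : ¬ H.Adj x y := hI _ mx _ my
  have n1 : ∀ k ∈ K, k ≠ x ∧ k ≠ y := fun k hk => ⟨fun h => mx (h ▸ hk), fun h => my (h ▸ hk)⟩
  -- every vertex of the clique sees exactly one of `x`, `y`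
  have or1 : ∀ k ∈ K, H.Adj k x ∨ H.Adj k y := by
    intro k hk
    by_contra hcon
    push Not at hcon
    exact h.ind ⟨k, x, y, (n1 k hk).1, (n1 k hk).2, hxy, hcon.1, hcon.2, nxy⟩
  have not2 : ∀ k ∈ K, ∀ p ∈ K, ∀ q ∈ K, k ≠ p → k ≠ q → p ≠ q → ¬ (H.Adj k x ∧ H.Adj k y) := by
    rintro k hk p hp q hq hkp hkq hpq ⟨h1, h2⟩
    apply h.deg
    refine ⟨k, ![p, q, x, y], ?_, ?_⟩
    · intro i j hij
      have h3 := (n1 p hp).1
      have h4 := (n1 p hp).2
      have h5 := (n1 q hq).1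
      have h6 := (n1 q hq).2
      fin_cases i <;> fin_cases j <;> simp_all
    · intro i
      fin_cases i
      · exact hK _ hk _ hp hkp
      · exact hK _ hk _ hq hkq
      · exact h1
      · exact h2
  -- a triangle together with a vertex that sees none of it
  have far3 : ∀ p q r s : W, H.Adj p q → H.Adj p r → H.Adj q r → s ≠ p → s ≠ q → s ≠ r →
      ¬ H.Adj s p → ¬ H.Adj s q → ¬ H.Adj s r → False := by
    intro p q r s h1 h2 h3 h4 h5 h6 h7 h8 h9
    apply h.far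
    refine ⟨s, {p, q, r}, ⟨p, by simp⟩, by simp [h4, h5, h6], ?_, ?_⟩
    · rintro t (rfl | rfl | rfl)
      · exact h7
      · exact h8
      · exact h9
    · rintro t (rfl | rfl | rfl)
      · exact ⟨q, by simp, r, by simp, h3.ne, h1, h2⟩
      · exact ⟨p, by simp, r, by simp, h2.ne, h1.symm, h3⟩
      · exact ⟨p, by simp, q, by simp, h1.ne, h2.symm, h3.symm⟩
  have core : ∀ p ∈ K, ∀ q ∈ K, ∀ r ∈ K, ∀ s t : W, s ∉ K → t ∉ K → s ≠ t → ¬ H.Adj s t →
      p ≠ q → p ≠ r → q ≠ r → H.Adj p s → H.Adj q s → H.Adj r t → ¬ H.Adj p t → ¬ H.Adj q t →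
      False := by
    intro p hp q hq r hr s t hs ht hst nst hpq hpr hqr h1 h2 h3 h4 h5
    exact far3 s p q t h1.symm h2.symm (hK _ hp _ hq hpq) hst.symm (fun h => ht (h ▸ hp))
      (fun h => ht (h ▸ hq)) (fun h => nst h.symm) (fun h => h4 h.symm) (fun h => h5 h.symm)
  have all4 : ∀ s, ¬ (H.Adj a s ∧ H.Adj b s ∧ H.Adj c s) := by
    rintro s ⟨h1, h2, h3⟩
    exact h.k4 (K4_of (hK _ ma _ mb hab) (hK _ ma _ mc hac) h1 (hK _ mb _ mc hbc) h2 h3)
  have a1 := or1 a ma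
  have b1 := or1 b mb
  have c1 := or1 c mc
  have a2 := not2 a ma b mb c mc hab hac hbc
  have b2 := not2 b mb a ma c mc hab.symm hbc hac
  have c2 := not2 c mc a ma b mb hac.symm hbc.symm hab
  have s1 := all4 x
  have s2 := all4 y
  have nyx : ¬ H.Adj y x := fun h => nxy h.symm
  by_cases hax : H.Adj a x <;> by_cases hbx : H.Adj b x <;> by_cases hcx : H.Adj c x
  · exact s1 ⟨hax, hbx, hcx⟩
  · exact core a ma b mb c mc x y mx my hxy nxy hab hac hbc hax hbx (c1.resolve_left hcx)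
      (fun h => a2 ⟨hax, h⟩) (fun h => b2 ⟨hbx, h⟩)
  · exact core a ma c mc b mb x y mx my hxy nxy hac hab hbc.symm hax hcx (b1.resolve_left hbx)
      (fun h => a2 ⟨hax, h⟩) (fun h => c2 ⟨hcx, h⟩)
  · exact core b mb c mc a ma y x my mx hxy.symm nyx hbc hab.symm hac.symm
      (b1.resolve_left hbx) (c1.resolve_left hcx) hax hbx hcx
  · exact core b mb c mc a ma x y mx my hxy nxy hbc hab.symm hac.symm hbx hcx (a1.resolve_left hax)
      (fun h => b2 ⟨hbx, h⟩) (fun h => c2 ⟨hcx, h⟩)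
  · exact core a ma c mc b mb y x my mx hxy.symm nyx hac hab hbc.symm
      (a1.resolve_left hax) (c1.resolve_left hcx) hbx hax hcx
  · exact core a ma b mb c mc y x my mx hxy.symm nyx hab hac hbc
      (a1.resolve_left hax) (b1.resolve_left hbx) hcx hax hbx
  · exact s2 ⟨a1.resolve_left hax, b1.resolve_left hbx, c1.resolve_left hcx⟩

end Pool.Agent.U388.ITM
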