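import Pool.Agent.U388.ITM.Basic
import Pool.Agent.H175R2.Conn

/-!
Induced paths as lists, and shortest connections.
-/

set_option autoImplicit false

namespace Pool.Agent.U388.ITM

open Pool.Agent.H175R2

variable {V : Type}

/-- `x` is not in `l` and its only neighbour in `l` is the head -/
def AH (G : SimpleGraph V) (x : V) (l : List V) : Prop :=
  x ∉ l ∧ ∀ z ∈ l, (G.Adj x z ↔ l.head? = some z)

/-- `x` is not in `l` and its only neighbour in `l` is the last element -/
def AL (G : SimpleGraph V) (x : V) (l : List V) : Prop :=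
  x ∉ l ∧ ∀ z ∈ l, (G.Adj x z ↔ l.getLast? = some z)

/-- disjoint and without edges between them -/
def NA (G : SimpleGraph V) (l l' : List V) : Prop :=
  ∀ x ∈ l, ∀ y ∈ l', x ≠ y ∧ ¬ G.Adj x y

/-- `l` is an induced path -/
def PathL (G : SimpleGraph V) : List V → Prop
  | [] => True
  | x :: l => AH G x l ∧ PathL G l

variable {G : SimpleGraph V} {x : V} {l l' : List V}

lemma NA.symm (h : NA G l l') : NA G l' l := fun x hx y hy =>
  ⟨(h y hy x hx).1.symm, fun h' => (h y hy x hx).2 h'.symm⟩

lemma NA.rev_left (h : NA G l l') : NA G l.reverse l' := fun x hx y hy =>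
  h x (List.mem_reverse.1 hx) y hy

lemma NA.rev_right (h : NA G l l') : NA G l l'.reverse := fun x hx y hy =>
  h x hx y (List.mem_reverse.1 hy)

lemma NA.mono {m m' : List V} (h : NA G l l') (h1 : ∀ x ∈ m, x ∈ l) (h2 : ∀ x ∈ m', x ∈ l') :
    NA G m m' := fun x hx y hy => h x (h1 x hx) y (h2 y hy)

@[simp] lemma NA.nil_left : NA G [] l := fun x hx => absurd hx (by simp)

@[simp] lemma NA.nil_right : NA G l [] := fun x _ y hy => absurd hy (by simp)

@[simp] lemma AH.nil : AH G x [] := ⟨by simp, fun z hz => absurd hz (by simp)⟩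

@[simp] lemma AL.nil : AL G x [] := ⟨by simp, fun z hz => absurd hz (by simp)⟩

lemma AL.rev (h : AL G x l) : AH G x l.reverse := by
  refine ⟨fun hx => h.1 (List.mem_reverse.1 hx), fun z hz => ?_⟩
  rw [List.head?_reverse]
  exact h.2 z (List.mem_reverse.1 hz)

lemma AH.rev (h : AH G x l) : AL G x l.reverse := by
  refine ⟨fun hx => h.1 (List.mem_reverse.1 hx), fun z hz => ?_⟩
  rw [List.getLast?_reverse]
  exact h.2 z (List.mem_reverse.1 hz)

lemma mem_of_head {z : V} (h : l.head? = some z) : z ∈ l := List.mem_of_head? h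

lemma mem_of_last {z : V} (h : l.getLast? = some z) : z ∈ l := List.mem_of_getLast? h

lemma head_append_of_mem {z : V} (hz : z ∈ l) : (l ++ l').head? = l.head? := by
  cases l with
  | nil => simp at hz
  | cons a t => rfl

lemma last_append_of_mem {z : V} (hz : z ∈ l') : (l ++ l').getLast? = l'.getLast? := by
  cases l' with
  | nil => simp at hz
  | cons a t => rw [List.getLast?_append_cons]

/-- the paths are exactly the concatenations of paths joined by one edge -/
lemma pathL_append : PathL G (l ++ l') ↔ PathL G l ∧ PathL G l' ∧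
    ∀ x ∈ l, ∀ y ∈ l', x ≠ y ∧ (G.Adj x y ↔ l.getLast? = some x ∧ l'.head? = some y) := by
  induction l with
  | nil =>
    simp only [List.nil_append, List.not_mem_nil, false_imp_iff, implies_true, and_true]
    simp [PathL]
  | cons a t ih =>
    simp only [List.cons_append, PathL]
    rw [ih]
    constructor
    · rintro ⟨⟨h1, h2⟩, h3, h4, h5⟩
      refine ⟨⟨⟨fun h => h1 (by simp [h]), fun z hz => ?_⟩, h3⟩, h4, ?_⟩
      · rw [h2 z (by simp [hz]), head_append_of_mem hz]
      · intro x hx y hy
        rw [List.mem_cons] at hx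
        by_cases hxt : x ∈ t
        · obtain ⟨h6, h7⟩ := h5 x hxt y hy
          refine ⟨h6, ?_⟩
          rw [h7]
          cases t with
          | nil => simp at hxt
          | cons b s => simp
        · have hxa : x = a := hx.resolve_right hxt
          subst hxa
          refine ⟨fun h => h1 (by rw [List.mem_append]; exact Or.inr (h ▸ hy)), ?_⟩
          rw [h2 y (by simp [hy])]
          cases t with
          | nil => simp
          | cons b s =>
            simp only [List.cons_append, List.head?_cons, Option.some.injEq,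
              List.getLast?_cons_cons]
            constructor
            · rintro rfl
              exact absurd rfl (h5 b (by simp) b hy).1
            · rintro ⟨h6, _⟩
              exact absurd (mem_of_last h6) hxt
    · rintro ⟨⟨⟨h1, h2⟩, h3⟩, h4, h5⟩
      refine ⟨⟨?_, ?_⟩, h3, h4, ?_⟩
      · intro h
        rw [List.mem_append] at h
        rcases h with h | h
        · exact h1 h
        · exact (h5 a (by simp) a h).1 rfl
      · intro z hz
        rw [List.mem_append] at hz
        rcases hz with hz | hz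
        · rw [h2 z hz, head_append_of_mem hz]
        · obtain ⟨h6, h7⟩ := h5 a (by simp) z hz
          rw [h7]
          cases t with
          | nil => simp
          | cons b s =>
            simp only [List.cons_append, List.head?_cons, Option.some.injEq,
              List.getLast?_cons_cons]
            constructor
            · rintro ⟨h8, _⟩
              exact absurd (mem_of_last h8) h1
            · rintro rfl
              exact absurd rfl (h5 b (by simp) b hz).1
      · intro x hx y hy
        obtain ⟨h6, h7⟩ := h5 x (by simp [hx]) y hy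
        refine ⟨h6, ?_⟩
        rw [h7]
        cases t with
        | nil => simp at hx
        | cons b s => simp

lemma pathL_reverse (h : PathL G l) : PathL G l.reverse := by
  induction l with
  | nil => exact h
  | cons a t ih =>
    obtain ⟨h1, h2⟩ := h
    rw [List.reverse_cons, pathL_append]
    refine ⟨ih h2, ⟨AH.nil, trivial⟩, ?_⟩
    intro x hx y hy
    rw [List.mem_singleton] at hy
    subst hy
    have hx' := List.mem_reverse.1 hx
    refine ⟨fun h => h1.1 (h ▸ hx'), ?_⟩
    rw [G.adj_comm, h1.2 x hx', List.getLast?_reverse]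
    simp

/-- splitting a path at a vertex -/
lemma PathL.split {A B : List V} {q : V} (h : PathL G (A ++ q :: B)) :
    PathL G A ∧ PathL G B ∧ AL G q A ∧ AH G q B ∧ NA G A B := by
  rw [pathL_append] at h
  obtain ⟨h1, ⟨h2, h3⟩, h4⟩ := h
  refine ⟨h1, h3, ⟨fun h => (h4 q h q (by simp)).1 rfl, fun z hz => ?_⟩, h2, ?_⟩
  · rw [G.adj_comm, (h4 z hz q (by simp)).2]
    simp
  · intro x hx y hy
    obtain ⟨h5, h6⟩ := h4 x hx y (by simp [hy])
    refine ⟨h5, fun h => ?_⟩
    have := (h6.1 h).2
    simp only [List.head?_cons, Option.some.injEq] at this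
    subst this
    exact h2.1 hy

/-- joining paths at a vertex -/
lemma PathL.join {A B : List V} {q : V} (h1 : PathL G A) (h2 : PathL G B) (h3 : AL G q A)
    (h4 : AH G q B) (h5 : NA G A B) : PathL G (A ++ q :: B) := by
  rw [pathL_append]
  refine ⟨h1, ⟨h4, h2⟩, fun x hx y hy => ?_⟩
  rw [List.mem_cons] at hy
  rcases hy with rfl | hy
  · refine ⟨fun h => h3.1 (h ▸ hx), ?_⟩
    rw [G.adj_comm, h3.2 x hx]
    simp
  · refine ⟨(h5 x hx y hy).1, iff_of_false (h5 x hx y hy).2 ?_⟩
    rintro ⟨_, h⟩
    simp only [List.head?_cons, Option.some.injEq] at h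
    subst h
    exact h4.1 hy

lemma PathL.left (h : PathL G (l ++ l')) : PathL G l := (pathL_append.1 h).1

lemma PathL.right (h : PathL G (l ++ l')) : PathL G l' := (pathL_append.1 h).2.1

lemma PathL.congr {G' : SimpleGraph V} (h : PathL G l)
    (hc : ∀ x ∈ l, ∀ y ∈ l, (G.Adj x y ↔ G'.Adj x y)) : PathL G' l := by
  induction l with
  | nil => trivial
  | cons a t ih =>
    obtain ⟨⟨h1, h2⟩, h3⟩ := h
    refine ⟨⟨h1, fun z hz => ?_⟩, ih h3 (fun x hx y hy => hc x (by simp [hx]) y (by simp [hy]))⟩
    rw [← hc a (by simp) z (by simp [hz])]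
    exact h2 z hz

/-- the first element with a property -/
lemma first_split {p : V → Prop} (h : ∃ y ∈ l, p y) :
    ∃ A y B, l = A ++ y :: B ∧ p y ∧ ∀ z ∈ A, ¬ p z := by
  induction l with
  | nil => obtain ⟨y, hy, _⟩ := h; simp at hy
  | cons a t ih =>
    by_cases ha : p a
    · exact ⟨[], a, t, rfl, ha, by simp⟩
    · obtain ⟨y, hy, hp⟩ := h
      rw [List.mem_cons] at hy
      have hyt : y ∈ t := hy.resolve_left (fun h => ha (h ▸ hp))
      obtain ⟨A, y', B, h1, h2, h3⟩ := ih ⟨y, hyt, hp⟩
      refine ⟨a :: A, y', B, by rw [h1]; rfl, h2, ?_⟩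
      intro z hz
      rw [List.mem_cons] at hz
      rcases hz with rfl | hz
      · exact ha
      · exact h3 z hz

open Finset Classical in
/-- shortest connections -/
theorem exists_path (P' : V → Prop) : ∀ (n : ℕ) (P : V → Prop) (Y : Finset V), Y.card = n →
    Cn G Y → (∃ y ∈ Y, P y) → (∃ y ∈ Y, P' y) →
    ∃ l : List V, l ≠ [] ∧ (∀ x ∈ l, x ∈ Y) ∧ PathL G l ∧
      (∀ x ∈ l, (P x ↔ l.head? = some x)) ∧ (∀ x ∈ l, (P' x ↔ l.getLast? = some x)) := by
  intro n
  induction n using Nat.strong_induction_on with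
  | _ n ih =>
    intro P Y hn hY hP hP'
    by_cases hboth : ∃ y ∈ Y, P y ∧ P' y
    · obtain ⟨y, hy, h1, h2⟩ := hboth
      refine ⟨[y], by simp, by simpa using hy, ⟨AH.nil, trivial⟩, ?_, ?_⟩
      · intro x hx
        rw [List.mem_singleton] at hx
        subst hx
        simpa using h1
      · intro x hx
        rw [List.mem_singleton] at hx
        subst hx
        simpa using h2
    by_cases hsm : ∃ Y' ⊆ Y, Y' ≠ Y ∧ Cn G Y' ∧ (∃ y ∈ Y', P y) ∧ (∃ y ∈ Y', P' y)
    · obtain ⟨Y', h1, h2, h3, h4, h5⟩ := hsm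
      have hlt : Y'.card < n := by
        rw [← hn]
        exact card_lt_card (Finset.ssubset_iff_subset_ne.2 ⟨h1, h2⟩)
      obtain ⟨l, a1, a2, a3, a4, a5⟩ := ih Y'.card hlt P Y' rfl h3 h4 h5
      exact ⟨l, a1, fun x hx => h1 (a2 x hx), a3, a4, a5⟩
    push Not at hboth hsm
    obtain ⟨x, hx, hPx⟩ := hP
    obtain ⟨y0, hy0, hPy0⟩ := hP'
    have hxy : y0 ≠ x := by
      rintro rfl
      exact hboth y0 hx hPx hPy0
    have hyE : y0 ∈ Y.erase x := mem_erase.2 ⟨hxy, hy0⟩
    set Z := cpt G (Y.erase x) y0 with hZ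
    have hZc : Cn G Z := cn_cpt hyE
    have hxZ : x ∉ Z := fun h => notMem_erase x Y (cpt_subset h)
    have hZY : Z ⊆ Y := cpt_subset.trans (erase_subset _ _)
    have hy0Z : y0 ∈ Z := mem_cpt_self hyE
    obtain ⟨a, ha, b, hb, hab⟩ := hY.2 Z hZY ⟨y0, hy0Z⟩ ⟨x, mem_sdiff.2 ⟨hx, hxZ⟩⟩
    have hbx : b = x := by
      by_contra hne
      obtain ⟨hb1, hb2⟩ := mem_sdiff.1 hb
      exact not_adj_cpt hyE ha (mem_erase.2 ⟨hne, hb1⟩) hb2 hab
    subst hbx
    have hU : Cn G (Z ∪ {b}) := hZc.union (Cn.singleton b) (Or.inl ⟨a, ha, b, by simp, hab⟩)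
    have hUY : Z ∪ {b} = Y := by
      by_contra hne
      refine hsm (Z ∪ {b}) (union_subset hZY (by simpa using hx)) hne hU ⟨b, by simp, hPx⟩ y0
        (by simp [hy0Z]) hPy0
    have hnP : ∀ z ∈ Z, ¬ P z := by
      intro z hz hPz
      refine hsm Z hZY (fun h => ?_) hZc ⟨z, hz, hPz⟩ y0 hy0Z hPy0
      rw [h] at hxZ
      exact hxZ hx
    have hlt : Z.card < n := by
      rw [← hn]
      exact card_lt_card ⟨hZY, fun h => hxZ (h hx)⟩
    obtain ⟨l, a1, a2, a3, a4, a5⟩ := ih Z.card hlt (fun z => G.Adj b z) Z rfl hZc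
      ⟨a, ha, hab.symm⟩ ⟨y0, hy0Z, hPy0⟩
    have hbl : b ∉ l := fun h => hxZ (a2 b h)
    refine ⟨b :: l, by simp, ?_, ⟨⟨hbl, a4⟩, a3⟩, ?_, ?_⟩
    · intro z hz
      rw [List.mem_cons] at hz
      rcases hz with rfl | hz
      · exact hx
      · exact hZY (a2 z hz)
    · intro z hz
      rw [List.mem_cons] at hz
      rcases hz with rfl | hz
      · simpa using hPx
      · simp only [List.head?_cons, Option.some.injEq]
        refine iff_of_false (hnP z (a2 z hz)) ?_
        rintro rfl
        exact hbl hz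
    · have hlast : (b :: l).getLast? = l.getLast? := by
        cases l with
        | nil => exact absurd rfl a1
        | cons c t => simp
      intro z hz
      rw [hlast]
      rw [List.mem_cons] at hz
      rcases hz with rfl | hz
      · refine iff_of_false (hboth z hx hPx) (fun h => hbl (mem_of_last h))
      · exact a5 z hz

end Pool.Agent.U388.ITM
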