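import Pool.Agent.U388.ITM.Diam
import Pool.Agent.U388.ITM.Check

/-!
2-connected graphs without induced subdivision of the paw, and the classification.
-/

set_option autoImplicit false

namespace Pool.Agent.U388.ITM

open Pool.Agent.H175R2 Finset Classical

variable {V : Type} {G : SimpleGraph V}

/-- no induced cycle with a vertex having exactly one neighbour on it -/
def NoLolli (G : SimpleGraph V) : Prop :=
  ∀ (p a : V) (l : List V), ¬ Lolli G p a l

/-- triangles are hit at least twice by every neighbour -/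
lemma tri_nbr (hL : NoLolli G) {a b c x : V} (hab : G.Adj a b) (hbc : G.Adj b c) (hac : G.Adj a c)
    (hxa : G.Adj x a) (hxb : x ≠ b) (hxc : x ≠ c) : G.Adj x b ∨ G.Adj x c := by
  by_contra hcon
  push Not at hcon
  refine hL x a [b, c] ⟨by simp, ⟨⟨by simpa using hbc.ne, by simpa using hbc⟩, ⟨AH.nil, trivial⟩⟩,
    ?_, ?_, ?_, hxa, ?_⟩
  · simp only [List.mem_cons, List.not_mem_nil, or_false, not_or]
    exact ⟨hab.ne, hac.ne⟩
  · intro z hz
    simp only [List.mem_cons, List.not_mem_nil, or_false] at hz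
    rcases hz with rfl | rfl
    · simpa using hab
    · simpa using hac
  · simp only [List.mem_cons, List.not_mem_nil, or_false, not_or]
    exact ⟨hxb, hxc⟩
  · intro z hz
    simp only [List.mem_cons, List.not_mem_nil, or_false] at hz
    rcases hz with rfl | rfl
    · exact hcon.1
    · exact hcon.2

/-- adjacent to two of three vertices -/
def Two (G : SimpleGraph V) (a b c x : V) : Prop :=
  (G.Adj x a ∧ G.Adj x b) ∨ (G.Adj x a ∧ G.Adj x c) ∨ (G.Adj x b ∧ G.Adj x c)

lemma tri_two (hL : NoLolli G) {a b c x : V} (hab : G.Adj a b) (hbc : G.Adj b c) (hac : G.Adj a c)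
    (hx : G.Adj x a ∨ G.Adj x b ∨ G.Adj x c) : Two G a b c x := by
  unfold Two
  by_cases e1 : x = a
  · subst e1; exact Or.inr (Or.inr ⟨hab, hac⟩)
  by_cases e2 : x = b
  · subst e2; exact Or.inr (Or.inl ⟨hab.symm, hbc⟩)
  by_cases e3 : x = c
  · subst e3; exact Or.inl ⟨hac.symm, hbc.symm⟩
  rcases hx with h | h | h
  · have := tri_nbr hL hab hbc hac h e2 e3
    tauto
  · have := tri_nbr hL hab.symm hac hbc h e1 e3
    tauto
  · have := tri_nbr hL hac.symm hab hbc.symm h e1 e2
    tauto

lemma tri_all [Fintype V] (hc : Cn G univ) (hL : NoLolli G) {a b c : V} (hab : G.Adj a b)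
    (hbc : G.Adj b c) (hac : G.Adj a c) (x0 : V) : Two G a b c x0 := by
  by_contra hx0
  obtain ⟨x, hx, y, hy, hxy⟩ := hc.2 (univ.filter (fun x => Two G a b c x)) (subset_univ _)
    ⟨a, by simp only [mem_filter, mem_univ, true_and]; exact Or.inr (Or.inr ⟨hab, hac⟩)⟩
    ⟨x0, by simpa using hx0⟩
  rw [mem_filter] at hx
  simp only [mem_sdiff, mem_univ, mem_filter, true_and] at hy
  apply hy
  apply tri_two hL hab hbc hac
  rcases hx.2 with ⟨h1, h2⟩ | ⟨h1, h2⟩ | ⟨h1, h2⟩
  · by_cases e1 : y = a
    · subst e1; exact Or.inr (Or.inl hab)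
    by_cases e2 : y = b
    · subst e2; exact Or.inl hab.symm
    have := tri_nbr hL h1 hab h2 hxy.symm e1 e2
    tauto
  · by_cases e1 : y = a
    · subst e1; exact Or.inr (Or.inl hab)
    by_cases e2 : y = c
    · subst e2; exact Or.inl hac.symm
    have := tri_nbr hL h1 hac h2 hxy.symm e1 e2
    tauto
  · by_cases e1 : y = b
    · subst e1; exact Or.inl hab.symm
    by_cases e2 : y = c
    · subst e2; exact Or.inl hac.symm
    have := tri_nbr hL h1 hbc h2 hxy.symm e1 e2
    tauto

/-- a connected paw-free graph with a triangle is a cograph -/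
lemma tri_struct [Fintype V] (hc : Cn G univ) (hL : NoLolli G) {a b c : V} (hab : G.Adj a b)
    (hbc : G.Adj b c) (hac : G.Adj a c) : P4Free G univ := by
  have edge : ∀ x y, G.Adj x y → ∃ z, G.Adj x z ∧ G.Adj y z := by
    intro x y hxy
    rcases tri_all hc hL hab hbc hac x with h | h | h <;>
      rcases tri_all hc hL hab hbc hac y with h' | h' | h'
    · exact ⟨a, h.1, h'.1⟩
    · exact ⟨a, h.1, h'.1⟩
    · exact ⟨b, h.2, h'.1⟩
    · exact ⟨a, h.1, h'.1⟩
    · exact ⟨a, h.1, h'.1⟩
    · exact ⟨c, h.2, h'.2⟩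
    · exact ⟨b, h.1, h'.2⟩
    · exact ⟨c, h.2, h'.2⟩
    · exact ⟨b, h.1, h'.1⟩
  intro w _ x _ y _ z _ _ _ _ _ _ hyz
  obtain ⟨t, h1, h2⟩ := edge y z hyz
  rcases tri_all hc hL hyz h2 h1 w with h | h | h
  · exact Or.inl h.1
  · exact Or.inl h.1
  · exact Or.inr (Or.inl h.1)

/-- in a triangle-free graph without `Lolli`, a vertex adjacent to `p` on an induced 4-cycle is
adjacent to the opposite vertex -/
lemma c4_rule (hL : NoLolli G) (htf : ∀ a b c, G.Adj a b → G.Adj b c → ¬ G.Adj a c)
    {p q r s v : V} (hpq : G.Adj p q) (hqr : G.Adj q r) (hrs : G.Adj r s) (hps : G.Adj p s)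
    (hpr : p ≠ r) (hqs : q ≠ s) (hvp : G.Adj v p) (hvr : v ≠ r) (hvq : v ≠ q) (hvs : v ≠ s) :
    G.Adj v r := by
  by_contra hcon
  have hnpr : ¬ G.Adj p r := htf _ _ _ hpq hqr
  have hnqs : ¬ G.Adj q s := htf _ _ _ hqr hrs
  have hnvq : ¬ G.Adj v q := htf _ _ _ hvp hpq
  have hnvs : ¬ G.Adj v s := htf _ _ _ hvp hps
  refine hL v p [q, r, s] ⟨by simp, ⟨⟨?_, ?_⟩, ⟨⟨?_, ?_⟩, ⟨AH.nil, trivial⟩⟩⟩, ?_, ?_, ?_, hvp, ?_⟩
  · simp only [List.mem_cons, List.not_mem_nil, or_false, not_or]
    exact ⟨hqr.ne, hqs⟩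
  · intro z hz
    simp only [List.mem_cons, List.not_mem_nil, or_false] at hz
    rcases hz with rfl | rfl
    · simpa using hqr
    · refine iff_of_false hnqs ?_
      simpa using hrs.ne
  · simp only [List.mem_cons, List.not_mem_nil, or_false]
    exact hrs.ne
  · intro z hz
    simp only [List.mem_cons, List.not_mem_nil, or_false] at hz
    subst hz
    simpa using hrs
  · simp only [List.mem_cons, List.not_mem_nil, or_false, not_or]
    exact ⟨hpq.ne, hpr, hps.ne⟩
  · intro z hz
    simp only [List.mem_cons, List.not_mem_nil, or_false] at hz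
    have e1 : [q, r, s].head? = some q := rfl
    have e2 : [q, r, s].getLast? = some s := rfl
    rw [e1, e2]
    simp only [Option.some.injEq]
    rcases hz with rfl | rfl | rfl
    · simpa using hpq
    · refine iff_of_false hnpr ?_
      rintro (h | h)
      · exact hqr.ne h
      · exact hrs.ne h.symm
    · simpa using hps
  · simp only [List.mem_cons, List.not_mem_nil, or_false, not_or]
    exact ⟨hvq, hvr, hvs⟩
  · intro z hz
    simp only [List.mem_cons, List.not_mem_nil, or_false] at hz
    rcases hz with rfl | rfl | rfl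
    · exact hnvq
    · exact hcon
    · exact hnvs

/-- a connected triangle-free graph without `Lolli` and with an induced 4-cycle is complete
bipartite -/
lemma c4_struct [Fintype V] (hc : Cn G univ) (hL : NoLolli G)
    (htf : ∀ a b c, G.Adj a b → G.Adj b c → ¬ G.Adj a c) {a p b q : V}
    (hap : G.Adj a p) (hpb : G.Adj p b) (hbq : G.Adj b q) (haq : G.Adj a q) (hab : a ≠ b)
    (hpq : p ≠ q) : P4Free G univ := by
  have irr : ∀ x, ¬ G.Adj x x := fun x => G.loopless.irrefl x
  -- the rule, without distinctness assumptions on `v`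
  have rule : ∀ p q r s v, G.Adj p q → G.Adj q r → G.Adj r s → G.Adj p s → p ≠ r → q ≠ s →
      G.Adj v p → G.Adj v r := by
    intro p q r s v h1 h2 h3 h4 h5 h6 h7
    by_cases e1 : v = r
    · subst e1
      exact absurd h7.symm (htf _ _ _ h1 h2)
    by_cases e2 : v = q
    · subst e2; exact h2
    by_cases e3 : v = s
    · subst e3; exact h3.symm
    exact c4_rule hL htf h1 h2 h3 h4 h5 h6 h7 e1 e2 e3
  have cov : ∀ x, (G.Adj x p ∧ G.Adj x q) ∨ (G.Adj x a ∧ G.Adj x b) := by
    intro x0
    by_contra hx0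
    obtain ⟨x, hx, y, hy, hxy⟩ := hc.2 (univ.filter (fun x => (G.Adj x p ∧ G.Adj x q) ∨
      (G.Adj x a ∧ G.Adj x b))) (subset_univ _)
      ⟨a, by simp only [mem_filter, mem_univ, true_and]; exact Or.inl ⟨hap, haq⟩⟩
      ⟨x0, by simpa using hx0⟩
    rw [mem_filter] at hx
    simp only [mem_sdiff, mem_univ, mem_filter, true_and] at hy
    apply hy
    rcases hx.2 with ⟨h1, h2⟩ | ⟨h1, h2⟩
    · right
      have hya : G.Adj y a := by
        by_cases e : x = a
        · subst e; exact hxy.symm
        · exact rule x p a q y h1 hap.symm haq h2 e hpq hxy.symm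
      exact ⟨hya, rule a p b q y hap hpb hbq haq hab hpq hya⟩
    · left
      have hyp : G.Adj y p := by
        by_cases e : x = p
        · subst e; exact hxy.symm
        · exact rule x a p b y h1 hap hpb h2 e hab hxy.symm
      exact ⟨hyp, rule p b q a y hpb hbq haq.symm hap.symm hpq hab.symm hyp⟩
  have full : ∀ x y, G.Adj x p → G.Adj x q → G.Adj y a → G.Adj y b → G.Adj x y := by
    intro x y h1 h2 h3 h4
    by_cases e : x = a
    · subst e; exact h3.symm
    · exact (rule a p x q y hap h1.symm h2 haq (Ne.symm e) hpq h3).symm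
  have ind1 : ∀ x y, G.Adj x p → G.Adj y p → ¬ G.Adj x y := fun x y h1 h2 h3 =>
    htf x y p h3 h2 h1
  have ind2 : ∀ x y, G.Adj x a → G.Adj y a → ¬ G.Adj x y := fun x y h1 h2 h3 =>
    htf x y a h3 h2 h1
  intro w _ x _ y _ z _ _ _ _ hwx hxy hyz
  right; left
  rcases cov w with h1 | h1
  · rcases cov x with h2 | h2
    · exact absurd hwx (ind1 _ _ h1.1 h2.1)
    rcases cov y with h3 | h3
    · rcases cov z with h4 | h4
      · exact absurd hyz (ind1 _ _ h3.1 h4.1)
      · exact full w z h1.1 h1.2 h4.1 h4.2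
    · exact absurd hxy (ind2 _ _ h2.1 h3.1)
  · rcases cov x with h2 | h2
    · rcases cov y with h3 | h3
      · exact absurd hxy (ind1 _ _ h2.1 h3.1)
      · rcases cov z with h4 | h4
        · exact (full z w h4.1 h4.2 h1.1 h1.2).symm
        · exact absurd hyz (ind2 _ _ h3.1 h4.1)
    · exact absurd hwx (ind2 _ _ h1.1 h2.1)

/-- two long paths of a theta and a vertex of the third path -/
lemma lolli_of_theta {a b : V} {l1 l2 l3 : List V} {p q : V} {t : List V}
    (h : Theta G a b l1 l2 l3) (h3 : l3 = p :: q :: t) (h12 : 2 ≤ (l1 ++ b :: l2.reverse).length) :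
    Lolli G p a (l1 ++ b :: l2.reverse) := by
  subst h3
  have hpath : PathL G (l1 ++ b :: l2.reverse) :=
    PathL.join h.p1 (pathL_reverse h.p2) h.t1 h.t2.rev h.n12.rev_right
  have hna : a ∉ l1 ++ b :: l2.reverse := by
    simp only [List.mem_append, List.mem_cons, List.mem_reverse, not_or]
    exact ⟨h.h1.1, h.ab, h.h2.1⟩
  have hpb : ¬ G.Adj p b := by
    rw [G.adj_comm, h.t3.2 p (by simp), List.getLast?_cons_cons]
    intro h'
    exact h.p3.1.1 (mem_of_last h')
  refine ⟨h12, hpath, hna, ?_, ?_, ((h.h3.2 p (by simp)).2 (by simp)).symm, ?_⟩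
  · intro z hz
    have hb1 : ∀ z ∈ l1, z ≠ b := fun z hz h' => h.t1.1 (h' ▸ hz)
    have hb2 : ∀ z ∈ l2, z ≠ b := fun z hz h' => h.t2.1 (h' ▸ hz)
    have hh : (l1 ++ b :: l2.reverse).head? = some z ↔ l1.head? = some z ∨ (l1 = [] ∧ z = b) := by
      cases l1 with
      | nil => simp [eq_comm]
      | cons c s => simp
    have hl : (l1 ++ b :: l2.reverse).getLast? = some z ↔
        l2.head? = some z ∨ (l2 = [] ∧ z = b) := by
      cases l2 with
      | nil => simp [eq_comm]
      | cons c s =>
        have e : l1 ++ b :: (c :: s).reverse = (l1 ++ b :: s.reverse) ++ [c] := by simp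
        rw [e, last_append_of_mem (z := c) (by simp)]
        simp
    rw [hh, hl]
    simp only [List.mem_append, List.mem_cons, List.mem_reverse] at hz
    rcases hz with hz | rfl | hz
    · rw [h.h1.2 z hz]
      have e1 : l1 ≠ [] := List.ne_nil_of_mem hz
      have e2 := hb1 z hz
      have e3 : l2.head? ≠ some z := fun h' => (h.n12 z hz z (mem_of_head h')).1 rfl
      tauto
    · rw [h.adj]
      have e1 : l1.head? ≠ some z := fun h' => h.t1.1 (mem_of_head h')
      have e2 : l2.head? ≠ some z := fun h' => h.t2.1 (mem_of_head h')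
      simp only [reduceCtorEq, or_false]
      tauto
    · rw [h.h2.2 z hz]
      have e1 : l2 ≠ [] := List.ne_nil_of_mem hz
      have e2 := hb2 z hz
      have e3 : l1.head? ≠ some z := fun h' => (h.n12 z (mem_of_head h') z hz).1 rfl
      tauto
  · simp only [List.mem_append, List.mem_cons, List.mem_reverse, not_or]
    exact ⟨fun h' => (h.n13 p h' p (by simp)).1 rfl, fun h' => h.t3.1 (by simp [h']),
      fun h' => (h.n23 p h' p (by simp)).1 rfl⟩
  · intro z hz
    simp only [List.mem_append, List.mem_cons, List.mem_reverse] at hz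
    rcases hz with hz | rfl | hz
    · exact fun h' => (h.n13 z hz p (by simp)).2 h'.symm
    · exact hpb
    · exact fun h' => (h.n23 z hz p (by simp)).2 h'.symm

lemma len_le_one {a b : V} {l1 l2 l3 : List V} (hL : NoLolli G) (h : Theta G a b l1 l2 l3) :
    l3.length ≤ 1 := by
  by_contra hcon
  match l3, h, hcon with
  | [], _, h' => simp at h'
  | [_], _, h' => simp at h'
  | p :: q :: t, h, _ =>
    refine hL _ _ _ (lolli_of_theta h rfl ?_)
    have := h.e12
    rcases this with h1 | h1
    · have := List.length_pos_iff.2 h1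
      simp only [List.length_append, List.length_cons]
      omega
    · have := List.length_pos_iff.2 h1
      simp only [List.length_append, List.length_cons, List.length_reverse]
      omega

/-- 2-connected graphs without induced subdivision of the paw -/
theorem noLolli_struct [Fintype V] (h2 : TwoConn G) (hL : NoLolli G) :
    (∀ y, (univ.filter (fun z => G.Adj y z)).card ≤ 2) ∨ P4Free G univ := by
  by_cases htri : ∃ a b c, G.Adj a b ∧ G.Adj b c ∧ G.Adj a c
  · obtain ⟨a, b, c, hab, hbc, hac⟩ := htri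
    exact Or.inr (tri_struct h2.conn hL hab hbc hac)
  have htf : ∀ a b c, G.Adj a b → G.Adj b c → ¬ G.Adj a c := fun a b c h1 h2 h3 =>
    htri ⟨a, b, c, h1, h2, h3⟩
  by_cases hT : NoTheta G
  · exact noTheta_struct h2 hT
  right
  unfold NoTheta at hT
  push Not at hT
  obtain ⟨a, b, l1, l2, l3, h⟩ := hT
  have k3 := len_le_one hL h
  have k1 := len_le_one hL h.rot
  have k2 := len_le_one hL h.rot.rot
  have hn : ¬ G.Adj a b := by
    intro hab
    -- a common neighbour
    have : ∃ c, G.Adj a c ∧ G.Adj b c := by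
      have gen : ∀ l : List V, l.length ≤ 1 → l ≠ [] → AH G a l → AL G b l →
          ∃ c, G.Adj a c ∧ G.Adj b c := by
        intro l hl hne h1 h2
        match l, hl, hne, h1, h2 with
        | [], _, h', _, _ => exact absurd rfl h'
        | [c], _, _, h1, h2 => exact ⟨c, (h1.2 c (by simp)).2 (by simp), (h2.2 c (by simp)).2 (by simp)⟩
        | _ :: _ :: _, h', _, _, _ => simp at h'
      rcases h.e12 with h1 | h1
      · exact gen l1 k1 h1 h.h1 h.t1
      · exact gen l2 k2 h1 h.h2 h.t2
    obtain ⟨c, h1, h2⟩ := this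
    exact htf a b c hab h2 h1
  have hne : l1 ≠ [] ∧ l2 ≠ [] ∧ l3 ≠ [] := by
    rw [h.adj] at hn
    tauto
  match l1, l2, l3, h, k1, k2, k3, hne with
  | [p], [q], [s], h, _, _, _, _ =>
    have h1 := (h.h1.2 p (by simp)).2 (by simp)
    have h2' := (h.h2.2 q (by simp)).2 (by simp)
    have h3 := (h.t1.2 p (by simp)).2 (by simp)
    have h4 := (h.t2.2 q (by simp)).2 (by simp)
    exact c4_struct h2.conn hL htf h1 h3.symm h4 h2' h.ab (h.n12 p (by simp) q (by simp)).1
  | [], _, _, _, _, _, _, h' => exact absurd rfl h'.1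
  | _, [], _, _, _, _, _, h' => exact absurd rfl h'.2.1
  | _, _, [], _, _, _, _, h' => exact absurd rfl h'.2.2
  | _ :: _ :: _, _, _, _, h', _, _, _ => simp at h'
  | _, _ :: _ :: _, _, _, _, h', _, _ => simp at h'
  | _, _, _ :: _ :: _, _, _, _, h', _ => simp at h'

lemma dt_of_struct [Fintype V] (hc : Cn G univ)
    (h : (∀ y, (univ.filter (fun z => G.Adj y z)).card ≤ 2) ∨ P4Free G univ) :
    DT G 2 univ univ := by
  refine dt_regions hc.1 (fun x hx => ?_)
  rcases h with h | h
  · exact Or.inl (fun y _ => h y)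
  · exact Or.inr (h.mono (subset_univ _))

theorem bdd_of_struct {W : Type} (H : SimpleGraph W)
    (h : ∀ (V : Type) [Fintype V] (G : SimpleGraph V), TwoConn G → ¬ IsITM H G →
      (∀ y, (univ.filter (fun z => G.Adj y z)).card ≤ 2) ∨ P4Free G univ) : BddITM H := by
  refine ⟨3 * (2 + 1 + 1), fun V _ G hG => ?_⟩
  refine cw_of_blocks (fun V G => ¬ IsITM H G) ?_ 2 ?_ V G hG
  · intro V U G e hG hU
    exact hG (hU.trans_ind ⟨SimpleGraph.Embedding.comap e G⟩)
  · intro V _ G h2 hG
    exact dt_of_struct h2.conn (h V G h2 hG)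

theorem bdd_diamond : BddITM diamond :=
  bdd_of_struct _ fun V _ G h2 hG =>
    noTheta_struct h2 (fun a b l1 l2 l3 h => hG h.itm)

theorem bdd_paw : BddITM paw :=
  bdd_of_struct _ fun V _ G h2 hG =>
    noLolli_struct h2 (fun p a l h => hG h.itm)

theorem bdd_path : BddITM (SimpleGraph.pathGraph 4) :=
  bdd_of_struct _ fun V _ G _ hG => by
    right
    intro a _ b _ c _ d _ hac had hbd hab hbc hcd
    by_contra hcon
    push Not at hcon
    obtain ⟨h1, h2, h3⟩ := hcon
    apply hG
    apply IsITM.of_ind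
    refine ⟨⟨⟨![a, b, c, d], ?_⟩, ?_⟩⟩
    · intro i j hij
      have e1 := hab.ne
      have e2 := hbc.ne
      have e3 := hcd.ne
      fin_cases i <;> fin_cases j <;> simp_all
    · intro i j
      simp only [Function.Embedding.coeFn_mk, SimpleGraph.pathGraph_adj]
      have f1 := hab.symm
      have f2 := hbc.symm
      have f3 := hcd.symm
      have g1 : ¬ G.Adj c a := fun h => h1 h.symm
      have g2 : ¬ G.Adj d a := fun h => h2 h.symm
      have g3 : ¬ G.Adj d b := fun h => h3 h.symm
      fin_cases i <;> fin_cases j <;> simp_all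

/-- The classification. -/
theorem classification {W : Type} [Finite W] (H : SimpleGraph W) :
    BddITM H ↔ H.IsIndContained (SimpleGraph.pathGraph 4) ∨ H.IsIndContained paw ∨
      H.IsIndContained diamond := by
  constructor
  · intro h
    exact listed_of_bdd h
  · rintro (h | h | h)
    · exact BddITM.mono h bdd_path
    · exact BddITM.mono h bdd_paw
    · exact BddITM.mono h bdd_diamond

end Pool.Agent.U388.ITM
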