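import Pool.Agent.U388.ITM.Theta
import Pool.Agent.U388.ITM.Blk

/-!
The 2-connected graphs without induced subdivision of the diamond, or without induced subdivision
of the paw.
-/

set_option autoImplicit false

namespace Pool.Agent.U388.ITM

open Pool.Agent.H175R2

variable {V : Type} {G : SimpleGraph V}

lemma AH.pre {x : V} {l l' : List V} (h : AH G x (l ++ l')) : AH G x l :=
  ⟨fun hx => h.1 (List.mem_append_left _ hx), fun z hz => by
    rw [h.2 z (List.mem_append_left _ hz), head_append_of_mem hz]⟩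

lemma AL.suf {x : V} {l l' : List V} (h : AL G x (l ++ l')) : AL G x l' :=
  ⟨fun hx => h.1 (List.mem_append_right _ hx), fun z hz => by
    rw [h.2 z (List.mem_append_right _ hz), last_append_of_mem hz]⟩

lemma nbr_cases (p : V → Prop) (Q : List V) : (∀ z ∈ Q, ¬ p z) ∨
    (∃ A q B, Q = A ++ q :: B ∧ p q ∧ (∀ z ∈ A, ¬ p z) ∧ (∀ z ∈ B, ¬ p z)) ∨
    (∃ A q1 B q2 C, Q = A ++ q1 :: (B ++ q2 :: C) ∧ p q1 ∧ p q2 ∧ (∀ z ∈ A, ¬ p z) ∧
      (∀ z ∈ B, ¬ p z) ∧ (∀ z ∈ C, ¬ p z)) ∨
    (∃ A n1 B n2 C n3 D, Q = A ++ n1 :: (B ++ n2 :: (C ++ n3 :: D)) ∧ p n1 ∧ p n2 ∧ p n3 ∧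
      (∀ z ∈ B, ¬ p z) ∧ (∀ z ∈ C, ¬ p z)) := by
  by_cases h1 : ∃ y ∈ Q, p y
  · obtain ⟨A, q1, R1, rfl, hq1, hA⟩ := first_split h1
    by_cases h2 : ∃ y ∈ R1, p y
    · obtain ⟨B, q2, R2, rfl, hq2, hB⟩ := first_split h2
      by_cases h3 : ∃ y ∈ R2, p y
      · obtain ⟨C, q3, D, rfl, hq3, hC⟩ := first_split h3
        exact Or.inr (Or.inr (Or.inr ⟨A, q1, B, q2, C, q3, D, rfl, hq1, hq2, hq3, hB, hC⟩))
      · push Not at h3
        exact Or.inr (Or.inr (Or.inl ⟨A, q1, B, q2, R2, rfl, hq1, hq2, hA, hB, h3⟩))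
    · push Not at h2
      exact Or.inr (Or.inl ⟨A, q1, R1, rfl, hq1, hA, h2⟩)
  · push Not at h1
    exact Or.inl h1

/-- a vertex with three neighbours on an induced path -/
lemma fan {x : V} {Q : List V} (hQ : PathL G Q) (hx : x ∉ Q) {A B C D : List V} {n1 n2 n3 : V}
    (hE : Q = A ++ n1 :: (B ++ n2 :: (C ++ n3 :: D))) (h1 : G.Adj x n1) (h2 : G.Adj x n2)
    (h3 : G.Adj x n3) (hB : ∀ z ∈ B, ¬ G.Adj x z) (hC : ∀ z ∈ C, ¬ G.Adj x z) :
    Theta G n2 x [] (n1 :: B).reverse (C ++ [n3]) := by
  subst hE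
  have hQ' : PathL G ((n1 :: B) ++ n2 :: ((C ++ [n3]) ++ D)) := by
    have := hQ.right
    simpa using this
  obtain ⟨s1, s2, s3, s4, s5⟩ := hQ'.split
  have hx1 : x ∉ n1 :: B := fun h => hx (by simp at h ⊢; tauto)
  have hx3 : x ∉ C ++ [n3] := fun h => hx (by simp at h ⊢; tauto)
  have hx1' : AH G x (n1 :: B) := ⟨hx1, fun z hz => by
    rw [List.mem_cons] at hz
    simp only [List.head?_cons, Option.some.injEq]
    rcases hz with rfl | hz
    · simpa using h1
    · refine iff_of_false (hB z hz) ?_
      rintro rfl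
      exact s1.1.1 hz⟩
  have hC3 : n3 ∉ C := by
    have h := (pathL_append.1 s2.left).2.2
    intro hm
    exact (h n3 hm n3 (by simp)).1 rfl
  have hx3' : AL G x (C ++ [n3]) := ⟨hx3, fun z hz => by
    have hl : (C ++ [n3]).getLast? = some n3 := by simp
    rw [hl]
    rw [List.mem_append, List.mem_singleton] at hz
    simp only [Option.some.injEq]
    rcases hz with hz | rfl
    · refine iff_of_false (hC z hz) ?_
      rintro rfl
      exact hC3 hz
    · simpa using h3⟩
  refine ⟨h2.ne', trivial, pathL_reverse s1, s2.left, AH.nil, s3.rev, s4.pre, AL.nil, hx1'.rev, hx3',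
    NA.nil_left, NA.nil_left, (s5.mono (fun _ h => h) (fun z h => List.mem_append_left _ h)).rev_left,
    ?_, ?_, ?_, ?_⟩
  · simpa using h2.symm
  · right; simp
  · right; simp
  · left; simp

/-- a vertex `v` attached to the two ends of an induced path -/
lemma end_split {v q : V} {A B : List V} (hQ : PathL G (A ++ q :: B)) (hvQ : v ∉ A ++ q :: B)
    (hv : ∀ x ∈ A ++ q :: B, (G.Adj v x ↔ (A ++ q :: B).head? = some x ∨
      (A ++ q :: B).getLast? = some x)) :
    AH G v A ∧ AL G v B ∧ (G.Adj v q ↔ A = [] ∨ B = []) := by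
  have hd := (pathL_append.1 hQ).2.2
  have hd2 : q ∉ B := (pathL_append.1 hQ).2.1.1.1
  refine ⟨⟨fun h => hvQ (by simp [h]), fun z hz => ?_⟩, ⟨fun h => hvQ (by simp [h]), fun z hz => ?_⟩,
    ?_⟩
  · rw [hv z (by simp [hz]), head_append_of_mem hz]
    constructor
    · rintro (h | h)
      · exact h
      · rw [last_append_of_mem (z := q) (by simp)] at h
        exact absurd rfl (hd z hz z (mem_of_last h)).1
    · exact Or.inl
  · rw [hv z (by simp [hz])]
    have e : (A ++ q :: B).getLast? = B.getLast? := by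
      have : A ++ q :: B = (A ++ [q]) ++ B := by simp
      rw [this, last_append_of_mem hz]
    rw [e]
    constructor
    · rintro (h | h)
      · exfalso
        cases A with
        | nil =>
          simp only [List.nil_append, List.head?_cons, Option.some.injEq] at h
          subst h
          exact hd2 hz
        | cons a t =>
          simp only [List.cons_append, List.head?_cons, Option.some.injEq] at h
          subst h
          exact (hd a (by simp) a (by simp [hz])).1 rfl
      · exact h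
    · exact Or.inr
  · rw [hv q (by simp)]
    constructor
    · rintro (h | h)
      · left
        cases A with
        | nil => rfl
        | cons a t =>
          exfalso
          simp only [List.cons_append, List.head?_cons, Option.some.injEq] at h
          subst h
          exact (hd a (by simp) a (by simp)).1 rfl
      · right
        by_contra hB
        obtain ⟨b, hb⟩ : ∃ b, b ∈ B := List.exists_mem_of_ne_nil _ hB
        have e : (A ++ q :: B).getLast? = B.getLast? := by
          have : A ++ q :: B = (A ++ [q]) ++ B := by simp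
          rw [this, last_append_of_mem hb]
        rw [e] at h
        exact hd2 (mem_of_last h)
    · rintro (rfl | rfl)
      · left; simp
      · right; simp

end Pool.Agent.U388.ITM
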