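import Pool.Agent.U388.ITM.PathL

/-!
Thetas are subdivisions of the diamond, cycles with a pendant vertex are subdivisions of the paw.
-/

set_option autoImplicit false

namespace Pool.Agent.U388.ITM

open Pool.Agent.H175R2

variable {V : Type}

/-- the subgraph of `G` induced by `X` is a subdivision of `H` -/
def Sub {W : Type} (G : SimpleGraph V) (X : Set V) (H : SimpleGraph W) : Prop :=
  ∃ (U : Type) (S : SimpleGraph U), Subdivision H S ∧ ∃ f : S ↪g G, Set.range f = X

lemma Sub.itm {W : Type} {G : SimpleGraph V} {X : Set V} {H : SimpleGraph W} (h : Sub G X H) :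
    IsITM H G := by
  obtain ⟨U, S, hs, f, _⟩ := h
  exact ⟨U, S, hs, ⟨f⟩⟩

lemma edge_adj' {a d x y : V} (had : a ≠ d) :
    (SimpleGraph.edge a d).Adj x y ↔ (x = a ∧ y = d) ∨ (x = d ∧ y = a) := by
  rw [SimpleGraph.edge_adj]
  constructor
  · rintro ⟨h, _⟩
    tauto
  · rintro (⟨rfl, rfl⟩ | ⟨rfl, rfl⟩)
    · exact ⟨by tauto, had⟩
    · exact ⟨by tauto, had.symm⟩

/-- undoing the dissolution of a vertex of degree two -/
lemma Sub.dissolve {W : Type} {G : SimpleGraph V} {X : Set V} {H : SimpleGraph W} {c a d : V}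
    (hc : c ∉ X) (ha : a ∈ X) (hd : d ∈ X) (had : a ≠ d) (hnad : ¬ G.Adj a d)
    (hca : G.Adj c a) (hcd : G.Adj c d) (hother : ∀ x ∈ X, G.Adj c x → x = a ∨ x = d)
    (h : Sub (G ⊔ SimpleGraph.edge a d) X H) : Sub G (insert c X) H := by
  obtain ⟨U, S, hs, f, hf⟩ := h
  have hadj : ∀ x y, S.Adj x y ↔ G.Adj (f x) (f y) ∨ (f x = a ∧ f y = d) ∨ (f x = d ∧ f y = a) := by
    intro x y
    rw [← f.map_adj_iff, SimpleGraph.sup_adj, edge_adj' had]
  rw [← hf] at ha hd
  obtain ⟨u, hu⟩ := ha
  obtain ⟨v, hv⟩ := hd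
  have huv : S.Adj u v := (hadj u v).2 (Or.inr (Or.inl ⟨hu, hv⟩))
  have hcf : ∀ x, f x ≠ c := fun x hx => hc (by rw [← hf]; exact ⟨x, hx⟩)
  refine ⟨Option U, subdivideEdge S u v, .step huv hs, ⟨⟨fun o => o.elim c f, ?_⟩, ?_⟩, ?_⟩
  · rintro (_ | x) (_ | y) hxy
    · rfl
    · exact absurd (hxy.symm : f y = c) (hcf y)
    · exact absurd (hxy : f x = c) (hcf x)
    · exact congrArg some (f.injective hxy)
  · have key : ∀ y, G.Adj c (f y) ↔ y = u ∨ y = v := by
      intro y
      constructor
      · intro h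
        rcases hother (f y) (by rw [← hf]; exact ⟨y, rfl⟩) h with h | h
        · left; exact f.injective (h.trans hu.symm)
        · right; exact f.injective (h.trans hv.symm)
      · rintro (rfl | rfl)
        · rw [hu]; exact hca
        · rw [hv]; exact hcd
    rintro (_ | x) (_ | y)
    · simp
    · exact key y
    · rw [SimpleGraph.adj_comm, (subdivideEdge S u v).adj_comm]
      exact key x
    · show G.Adj (f x) (f y) ↔ S.Adj x y ∧ s(x, y) ≠ s(u, v)
      rw [hadj]
      constructor
      · intro h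
        refine ⟨Or.inl h, fun h' => ?_⟩
        rw [Sym2.eq_iff] at h'
        rcases h' with ⟨rfl, rfl⟩ | ⟨rfl, rfl⟩
        · rw [hu, hv] at h; exact hnad h
        · rw [hu, hv] at h; exact hnad h.symm
      · rintro ⟨h | h | h, h'⟩
        · exact h
        · exfalso
          apply h'
          rw [Sym2.eq_iff]
          left
          exact ⟨f.injective (h.1.trans hu.symm), f.injective (h.2.trans hv.symm)⟩
        · exfalso
          apply h'
          rw [Sym2.eq_iff]
          right
          exact ⟨f.injective (h.1.trans hv.symm), f.injective (h.2.trans hu.symm)⟩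
  · ext z
    constructor
    · rintro ⟨(_ | x), rfl⟩
      · exact Or.inl rfl
      · have hx : f x ∈ Set.range f := ⟨x, rfl⟩
        rw [hf] at hx
        exact Or.inr hx
    · rintro (rfl | hz)
      · exact ⟨none, rfl⟩
      · rw [← hf] at hz
        obtain ⟨x, rfl⟩ := hz
        exact ⟨some x, rfl⟩

/-- three internally disjoint paths from `a` to `b` with interiors `l1, l2, l3` and no further
edges, at most one of them being an edge -/
structure Theta (G : SimpleGraph V) (a b : V) (l1 l2 l3 : List V) : Prop where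
  ab : a ≠ b
  p1 : PathL G l1
  p2 : PathL G l2
  p3 : PathL G l3
  h1 : AH G a l1
  h2 : AH G a l2
  h3 : AH G a l3
  t1 : AL G b l1
  t2 : AL G b l2
  t3 : AL G b l3
  n12 : NA G l1 l2
  n13 : NA G l1 l3
  n23 : NA G l2 l3
  adj : G.Adj a b ↔ (l1 = [] ∨ l2 = [] ∨ l3 = [])
  e12 : l1 ≠ [] ∨ l2 ≠ []
  e13 : l1 ≠ [] ∨ l3 ≠ []
  e23 : l2 ≠ [] ∨ l3 ≠ []

namespace Theta

variable {G : SimpleGraph V} {a b : V} {l1 l2 l3 : List V}

lemma rot (h : Theta G a b l1 l2 l3) : Theta G a b l2 l3 l1 :=
  ⟨h.ab, h.p2, h.p3, h.p1, h.h2, h.h3, h.h1, h.t2, h.t3, h.t1, h.n23, h.n12.symm, h.n13.symm,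
    by rw [h.adj]; tauto, h.e23, h.e12.symm, h.e13.symm⟩

lemma swap (h : Theta G a b l1 l2 l3) : Theta G a b l2 l1 l3 :=
  ⟨h.ab, h.p2, h.p1, h.p3, h.h2, h.h1, h.h3, h.t2, h.t1, h.t3, h.n12.symm, h.n23, h.n13,
    by rw [h.adj]; tauto, h.e12.symm, h.e23, h.e13⟩

/-- the vertices -/
def verts (a b : V) (l1 l2 l3 : List V) : Set V :=
  {x | x = a ∨ x = b ∨ x ∈ l1 ∨ x ∈ l2 ∨ x ∈ l3}

lemma AH_congr {G' : SimpleGraph V} {x : V} {l : List V} (h : AH G x l)
    (hc : ∀ y ∈ l, (G.Adj x y ↔ G'.Adj x y)) : AH G' x l :=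
  ⟨h.1, fun z hz => by rw [← hc z hz]; exact h.2 z hz⟩

lemma AL_congr {G' : SimpleGraph V} {x : V} {l : List V} (h : AL G x l)
    (hc : ∀ y ∈ l, (G.Adj x y ↔ G'.Adj x y)) : AL G' x l :=
  ⟨h.1, fun z hz => by rw [← hc z hz]; exact h.2 z hz⟩

lemma NA_congr {G' : SimpleGraph V} {l l' : List V} (h : NA G l l')
    (hc : ∀ x ∈ l, ∀ y ∈ l', (G.Adj x y ↔ G'.Adj x y)) : NA G' l l' :=
  fun x hx y hy => ⟨(h x hx y hy).1, by rw [← hc x hx y hy]; exact (h x hx y hy).2⟩

/-- shorten a path with at least two interior vertices -/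
lemma short {c d : V} {l : List V} (h : Theta G a b (c :: d :: l) l2 l3) :
    Theta (G ⊔ SimpleGraph.edge a d) a b (d :: l) l2 l3 := by
  obtain ⟨ab, p1, p2, p3, h1, h2, h3, t1, t2, t3, n12, n13, n23, adj, e12, e13, e23⟩ := h
  have had : a ≠ d := fun h => h1.1 (by simp [h])
  have hal : a ∉ d :: l := fun h => h1.1 (by simp [List.mem_cons.1 h])
  have hbd : b ≠ d := fun h => t1.1 (by simp [h])
  have hne : ∀ x y, x ≠ a → y ≠ a → (G.Adj x y ↔ (G ⊔ SimpleGraph.edge a d).Adj x y) := by
    intro x y hx hy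
    rw [SimpleGraph.sup_adj, edge_adj' had]
    tauto
  have hne2 : ∀ x y, x ≠ d → y ≠ d → (G.Adj x y ↔ (G ⊔ SimpleGraph.edge a d).Adj x y) := by
    intro x y hx hy
    rw [SimpleGraph.sup_adj, edge_adj' had]
    tauto
  have m1 : ∀ x ∈ d :: l, x ≠ a := fun x hx h => hal (h ▸ hx)
  have m2 : ∀ x ∈ l2, x ≠ a := fun x hx h => h2.1 (h ▸ hx)
  have m3 : ∀ x ∈ l3, x ≠ a := fun x hx h => h3.1 (h ▸ hx)
  have d2 : ∀ x ∈ l2, x ≠ d := fun x hx h => (n12 d (by simp) x hx).1 h.symm
  have d3 : ∀ x ∈ l3, x ≠ d := fun x hx h => (n13 d (by simp) x hx).1 h.symm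
  refine ⟨ab, ?_, ?_, ?_, ?_, ?_, ?_, ?_, ?_, ?_, ?_, ?_, ?_, ?_, ?_, ?_, ?_⟩
  · exact PathL.congr p1.2 (fun x hx y hy => hne x y (m1 x hx) (m1 y hy))
  · exact p2.congr (fun x hx y hy => hne x y (m2 x hx) (m2 y hy))
  · exact p3.congr (fun x hx y hy => hne x y (m3 x hx) (m3 y hy))
  · refine ⟨hal, fun z hz => ?_⟩
    rw [SimpleGraph.sup_adj, edge_adj' had]
    have hz1 : ¬ G.Adj a z := by
      rw [h1.2 z (by simp [List.mem_cons.1 hz])]
      simp only [List.head?_cons, Option.some.injEq]
      rintro rfl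
      exact p1.1.1 hz
    simp only [List.head?_cons, Option.some.injEq]
    constructor
    · rintro (h | h | h)
      · exact absurd h hz1
      · exact h.2.symm
      · exact absurd h.1 had
    · intro h
      exact Or.inr (Or.inl ⟨trivial, h.symm⟩)
  · exact AH_congr h2 (fun y hy => hne2 a y had (d2 y hy))
  · exact AH_congr h3 (fun y hy => hne2 a y had (d3 y hy))
  · refine AL_congr (G := G) ⟨fun h => t1.1 (by simp [List.mem_cons.1 h]), fun z hz => ?_⟩
      (fun y hy => hne b y ab.symm (m1 y hy))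
    rw [t1.2 z (by simp [List.mem_cons.1 hz])]
    simp
  · exact AL_congr t2 (fun y hy => hne b y ab.symm (m2 y hy))
  · exact AL_congr t3 (fun y hy => hne b y ab.symm (m3 y hy))
  · exact NA_congr (n12.mono (fun x hx => by simp [List.mem_cons.1 hx]) (fun x hx => hx))
      (fun x hx y hy => hne x y (m1 x hx) (m2 y hy))
  · exact NA_congr (n13.mono (fun x hx => by simp [List.mem_cons.1 hx]) (fun x hx => hx))
      (fun x hx y hy => hne x y (m1 x hx) (m3 y hy))
  · exact NA_congr n23 (fun x hx y hy => hne x y (m2 x hx) (m3 y hy))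
  · rw [← hne2 a b had hbd, adj]
    simp
  · simp
  · simp
  · exact e23

lemma short_sub {W : Type} {H : SimpleGraph W} {c d : V} {l : List V}
    (h : Theta G a b (c :: d :: l) l2 l3)
    (hs : Sub (G ⊔ SimpleGraph.edge a d) (verts a b (d :: l) l2 l3) H) :
    Sub G (verts a b (c :: d :: l) l2 l3) H := by
  have e : verts a b (c :: d :: l) l2 l3 = insert c (verts a b (d :: l) l2 l3) := by
    ext x
    simp only [verts, List.mem_cons, Set.mem_ofPred_eq, Set.mem_insert_iff]
    tauto
  rw [e]
  have had : a ≠ d := fun h' => h.h1.1 (by simp [h'])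
  refine Sub.dissolve (a := a) (d := d) ?_ (Or.inl rfl) ?_ had ?_ ?_ ?_ ?_ hs
  · rintro (h' | h' | h' | h' | h')
    · exact h.h1.1 (by simp [h'])
    · exact h.t1.1 (by simp [h'])
    · exact h.p1.1.1 h'
    · exact (h.n12 c (by simp) c h').1 rfl
    · exact (h.n13 c (by simp) c h').1 rfl
  · right; right; left; simp
  · rw [h.h1.2 d (by simp)]
    simp only [List.head?_cons, Option.some.injEq]
    rintro rfl
    exact h.p1.1.1 (by simp)
  · exact ((h.h1.2 c (by simp)).2 (by simp)).symm
  · exact (h.p1.1.2 d (by simp)).2 (by simp)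
  · rintro x (h' | h' | h' | h' | h') hx
    · exact Or.inl h'
    · exfalso
      subst h'
      rw [G.adj_comm, h.t1.2 c (by simp)] at hx
      simp only [List.getLast?_cons_cons] at hx
      exact h.p1.1.1 (mem_of_last hx)
    · right
      have := (h.p1.1.2 x h').1 hx
      simp only [List.head?_cons, Option.some.injEq] at this
      exact this.symm
    · exact absurd hx (h.n12 c (by simp) x h').2
    · exact absurd hx (h.n13 c (by simp) x h').2

lemma verts_rot : verts a b l1 l2 l3 = verts a b l2 l3 l1 := by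
  ext x; simp only [verts, Set.mem_ofPred_eq]; tauto

lemma verts_swap : verts a b l1 l2 l3 = verts a b l2 l1 l3 := by
  ext x; simp only [verts, Set.mem_ofPred_eq]; tauto

/-- the smallest theta is the diamond -/
lemma base {c d : V} (h : Theta G a b [] [c] [d]) : Sub G (verts a b [] [c] [d]) diamond := by
  have hab : G.Adj a b := h.adj.2 (Or.inl rfl)
  have hac : G.Adj a c := (h.h2.2 c (by simp)).2 (by simp)
  have had : G.Adj a d := (h.h3.2 d (by simp)).2 (by simp)
  have hbc : G.Adj b c := (h.t2.2 c (by simp)).2 (by simp)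
  have hbd : G.Adj b d := (h.t3.2 d (by simp)).2 (by simp)
  have hcd := h.n23 c (by simp) d (by simp)
  refine ⟨Fin 4, diamond, .self, ⟨⟨![a, b, c, d], ?_⟩, ?_⟩, ?_⟩
  · intro i j hij
    have e1 := hab.ne
    have e2 := hac.ne
    have e3 := had.ne
    have e4 := hbc.ne
    have e5 := hbd.ne
    have e6 := hcd.1
    fin_cases i <;> fin_cases j <;> simp_all
  · intro i j
    simp only [Function.Embedding.coeFn_mk, diamond, SimpleGraph.fromRel_adj]
    have e6 := hcd.2
    have e7 : ¬ G.Adj d c := fun h => e6 h.symm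
    fin_cases i <;> fin_cases j <;> simp_all [SimpleGraph.adj_comm]
  · ext x
    simp only [verts, List.mem_singleton, List.not_mem_nil, false_or, Set.mem_ofPred_eq]
    constructor
    · rintro ⟨i, rfl⟩
      fin_cases i <;> simp
    · rintro (rfl | rfl | rfl | rfl)
      · exact ⟨0, rfl⟩
      · exact ⟨1, rfl⟩
      · exact ⟨2, rfl⟩
      · exact ⟨3, rfl⟩

/-- dissolve the interior vertex of a path of length two -/
lemma one {c : V} (h : Theta G a b [c] l2 l3) (h2 : l2 ≠ []) (h3 : l3 ≠ []) :
    Theta (G ⊔ SimpleGraph.edge a b) a b [] l2 l3 := by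
  obtain ⟨ab, p1, p2, p3, h1, h2', h3', t1, t2, t3, n12, n13, n23, adj, e12, e13, e23⟩ := h
  have hne : ∀ x y, x ≠ a → y ≠ a → (G.Adj x y ↔ (G ⊔ SimpleGraph.edge a b).Adj x y) := by
    intro x y hx hy
    rw [SimpleGraph.sup_adj, edge_adj' ab]
    tauto
  have hne2 : ∀ x y, x ≠ b → y ≠ b → (G.Adj x y ↔ (G ⊔ SimpleGraph.edge a b).Adj x y) := by
    intro x y hx hy
    rw [SimpleGraph.sup_adj, edge_adj' ab]
    tauto
  have m2 : ∀ x ∈ l2, x ≠ a := fun x hx h => h2'.1 (h ▸ hx)
  have m3 : ∀ x ∈ l3, x ≠ a := fun x hx h => h3'.1 (h ▸ hx)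
  have d2 : ∀ x ∈ l2, x ≠ b := fun x hx h => t2.1 (h ▸ hx)
  have d3 : ∀ x ∈ l3, x ≠ b := fun x hx h => t3.1 (h ▸ hx)
  refine ⟨ab, trivial, p2.congr (fun x hx y hy => hne x y (m2 x hx) (m2 y hy)),
    p3.congr (fun x hx y hy => hne x y (m3 x hx) (m3 y hy)), AH.nil,
    AH_congr h2' (fun y hy => hne2 a y ab (d2 y hy)), AH_congr h3' (fun y hy => hne2 a y ab (d3 y hy)),
    AL.nil, AL_congr t2 (fun y hy => hne b y ab.symm (m2 y hy)),
    AL_congr t3 (fun y hy => hne b y ab.symm (m3 y hy)), NA.nil_left, NA.nil_left,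
    NA_congr n23 (fun x hx y hy => hne x y (m2 x hx) (m3 y hy)), ?_, Or.inr h2, Or.inr h3, e23⟩
  simp only [SimpleGraph.sup_adj, edge_adj' ab, true_or, and_self, or_true]

/-- every theta is a subdivision of the diamond -/
theorem sub_diamond : ∀ (n : ℕ) (G : SimpleGraph V) (a b : V) (l1 l2 l3 : List V),
    l1.length + l2.length + l3.length = n → Theta G a b l1 l2 l3 → l2 ≠ [] → l3 ≠ [] →
    Sub G (verts a b l1 l2 l3) diamond := by
  intro n
  induction n using Nat.strong_induction_on with
  | _ n ih =>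
    intro G a b l1 l2 l3 hn h h2 h3
    match l1, l2, l3, hn, h, h2, h3 with
    | c :: d :: l, l2, l3, hn, h, h2, h3 =>
      refine h.short_sub (ih (n - 1) ?_ _ _ _ _ _ _ ?_ h.short h2 h3)
      · simp only [List.length_cons] at hn; omega
      · simp only [List.length_cons] at hn ⊢; omega
    | l1, c :: d :: l, l3, hn, h, h2, h3 =>
      rw [verts_swap]
      refine h.swap.short_sub ?_
      rw [← verts_swap]
      refine ih (n - 1) ?_ _ _ _ _ _ _ ?_ h.swap.short.swap (by simp) h3
      · simp only [List.length_cons] at hn; omega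
      · simp only [List.length_cons] at hn ⊢; omega
    | l1, l2, c :: d :: l, hn, h, h2, h3 =>
      rw [← verts_rot]
      refine h.rot.rot.short_sub ?_
      rw [verts_rot]
      refine ih (n - 1) ?_ _ _ _ _ _ _ ?_ h.rot.rot.short.rot h2 (by simp)
      · simp only [List.length_cons] at hn; omega
      · simp only [List.length_cons] at hn ⊢; omega
    | [], [c], [d], _, h, _, _ => exact h.base
    | [e], [c], [d], _, h, _, _ =>
      have e1 : verts a b [e] [c] [d] = insert e (verts a b [] [c] [d]) := by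
        ext x
        simp only [verts, List.mem_singleton, Set.mem_ofPred_eq, Set.mem_insert_iff, List.not_mem_nil]
        tauto
      rw [e1]
      refine Sub.dissolve (a := a) (d := b) ?_ (Or.inl rfl) (Or.inr (Or.inl rfl)) h.ab ?_ ?_ ?_ ?_
        (h.one (by simp) (by simp)).base
      · rintro (h' | h' | h' | h' | h')
        · exact h.h1.1 (by simp [h'])
        · exact h.t1.1 (by simp [h'])
        · simp at h'
        · exact (h.n12 e (by simp) e h').1 rfl
        · exact (h.n13 e (by simp) e h').1 rfl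
      · rw [h.adj]; simp
      · exact ((h.h1.2 e (by simp)).2 (by simp)).symm
      · exact ((h.t1.2 e (by simp)).2 (by simp)).symm
      · rintro x (h' | h' | h' | h' | h') hx
        · exact Or.inl h'
        · exact Or.inr h'
        · simp at h'
        · exact absurd hx (h.n12 e (by simp) x h').2
        · exact absurd hx (h.n13 e (by simp) x h').2

theorem itm (h : Theta G a b l1 l2 l3) : IsITM diamond G := by
  by_cases h2 : l2 = []
  · exact (sub_diamond _ G a b l2 l3 l1 rfl h.rot (h.e23.resolve_left (by simpa using h2))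
      (h.e12.resolve_right (by simpa using h2))).itm
  · by_cases h3 : l3 = []
    · exact (sub_diamond _ G a b l3 l1 l2 rfl h.rot.rot (h.e13.resolve_right (by simpa using h3))
        h2).itm
    · exact (sub_diamond _ G a b l1 l2 l3 rfl h h2 h3).itm

end Theta

/-- a cycle through `a` (the other vertices of the cycle being listed by `l`) and a vertex `p`
whose only neighbour on the cycle is `a` -/
structure Lolli (G : SimpleGraph V) (p a : V) (l : List V) : Prop where
  len : 2 ≤ l.length
  path : PathL G l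
  na : a ∉ l
  adj : ∀ z ∈ l, (G.Adj a z ↔ l.head? = some z ∨ l.getLast? = some z)
  pl : p ∉ l
  pa : G.Adj p a
  np : ∀ z ∈ l, ¬ G.Adj p z

namespace Lolli

variable {G : SimpleGraph V} {p a : V}

lemma base {c d : V} (h : Lolli G p a [c, d]) : Sub G {x | x = p ∨ x = a ∨ x ∈ [c, d]} paw := by
  have hac : G.Adj a c := (h.adj c (by simp)).2 (by simp)
  have had : G.Adj a d := (h.adj d (by simp)).2 (by simp)
  have hcd : G.Adj c d := (h.path.1.2 d (by simp)).2 (by simp)
  have hpc : ¬ G.Adj p c := h.np c (by simp)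
  have hpd : ¬ G.Adj p d := h.np d (by simp)
  have hpa := h.pa
  have e1 : p ≠ c := fun h' => h.pl (by simp [h'])
  have e2 : p ≠ d := fun h' => h.pl (by simp [h'])
  refine ⟨Fin 4, paw, .self, ⟨⟨![a, c, d, p], ?_⟩, ?_⟩, ?_⟩
  · intro i j hij
    have e3 := hac.ne
    have e4 := had.ne
    have e5 := hcd.ne
    have e6 := hpa.ne
    fin_cases i <;> fin_cases j <;> simp_all
  · intro i j
    simp only [Function.Embedding.coeFn_mk, paw, SimpleGraph.fromRel_adj]
    have e7 : ¬ G.Adj c p := fun h => hpc h.symm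
    have e8 : ¬ G.Adj d p := fun h => hpd h.symm
    have f1 := hac.symm
    have f2 := had.symm
    have f3 := hcd.symm
    have f4 := hpa.symm
    fin_cases i <;> fin_cases j <;> simp_all
  · ext x
    simp only [List.mem_cons, List.not_mem_nil, or_false, Set.mem_ofPred_eq]
    constructor
    · rintro ⟨i, rfl⟩
      fin_cases i <;> simp
    · rintro (rfl | rfl | rfl | rfl)
      · exact ⟨3, rfl⟩
      · exact ⟨0, rfl⟩
      · exact ⟨1, rfl⟩
      · exact ⟨2, rfl⟩

lemma short {c d e : V} {l : List V} (h : Lolli G p a (c :: d :: e :: l)) :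
    Lolli (G ⊔ SimpleGraph.edge a d) p a (d :: e :: l) := by
  obtain ⟨len, path, na, adj, pl, pa, np⟩ := h
  have had : a ≠ d := fun h => na (by simp [h])
  have hpd : p ≠ d := fun h => pl (by simp [h])
  have hal : a ∉ d :: e :: l := fun h => na (List.mem_cons_of_mem _ h)
  have hne : ∀ x y, x ≠ a → y ≠ a → (G.Adj x y ↔ (G ⊔ SimpleGraph.edge a d).Adj x y) := by
    intro x y hx hy
    rw [SimpleGraph.sup_adj, edge_adj' had]
    tauto
  have m1 : ∀ x ∈ d :: e :: l, x ≠ a := fun x hx h => hal (h ▸ hx)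
  have hpa : p ≠ a := pa.ne
  refine ⟨by simp, PathL.congr path.2 (fun x hx y hy => hne x y (m1 x hx) (m1 y hy)), hal, ?_,
    fun h => pl (List.mem_cons_of_mem _ h), Or.inl pa, ?_⟩
  · intro z hz
    rw [SimpleGraph.sup_adj, edge_adj' had, adj z (List.mem_cons_of_mem _ hz)]
    have hzc : c ≠ z := by
      rintro rfl
      exact path.1.1 hz
    simp only [List.head?_cons, Option.some.injEq, List.getLast?_cons_cons]
    constructor
    · rintro ((h | h) | (h | h))
      · exact absurd h hzc
      · exact Or.inr h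
      · exact Or.inl h.2.symm
      · exact absurd h.1 had
    · rintro (h | h)
      · exact Or.inr (Or.inl ⟨trivial, h.symm⟩)
      · exact Or.inl (Or.inr h)
  · intro z hz
    rw [← hne p z hpa (m1 z hz)]
    exact np z (List.mem_cons_of_mem _ hz)

theorem sub_paw : ∀ (n : ℕ) (G : SimpleGraph V) (p a : V) (l : List V), l.length = n →
    Lolli G p a l → Sub G {x | x = p ∨ x = a ∨ x ∈ l} paw := by
  intro n
  induction n with
  | zero =>
    intro G p a l hl h
    have := h.len
    omega
  | succ n ih =>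
    intro G p a l hl h
    match l, hl, h with
    | [], _, h => have := h.len; simp at this
    | [_], _, h => have := h.len; simp at this
    | [c, d], _, h => exact h.base
    | c :: d :: e :: l, hl, h =>
      have e1 : {x | x = p ∨ x = a ∨ x ∈ c :: d :: e :: l} =
          insert c {x | x = p ∨ x = a ∨ x ∈ d :: e :: l} := by
        ext x
        simp only [List.mem_cons, Set.mem_ofPred_eq, Set.mem_insert_iff]
        tauto
      rw [e1]
      have had : a ≠ d := fun h' => h.na (by simp [h'])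
      have hcp : c ≠ p := fun h' => h.pl (by simp [h'])
      have hcd : ¬ (c :: d :: e :: l).head? = some d := by
        simp only [List.head?_cons, Option.some.injEq]
        rintro rfl
        exact h.path.1.1 (by simp)
      refine Sub.dissolve (a := a) (d := d) ?_ (Or.inr (Or.inl rfl)) (Or.inr (Or.inr (by simp)))
        had ?_ ?_ ?_ ?_ (ih _ _ _ _ (by simpa using hl) h.short)
      · rintro (h' | h' | h')
        · exact hcp h'
        · exact h.na (by simp [h'])
        · exact h.path.1.1 h'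
      · rw [h.adj d (by simp)]
        rintro (h' | h')
        · exact hcd h'
        · simp only [List.getLast?_cons_cons] at h'
          exact h.path.2.1.1 (mem_of_last h')
      · exact ((h.adj c (by simp)).2 (by simp)).symm
      · exact (h.path.1.2 d (by simp)).2 (by simp)
      · rintro x (h' | h' | h') hx
        · subst h'
          exact absurd hx.symm (h.np c (by simp))
        · exact Or.inl h'
        · right
          have := (h.path.1.2 x h').1 hx
          simp only [List.head?_cons, Option.some.injEq] at this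
          exact this.symm

theorem itm {l : List V} (h : Lolli G p a l) : IsITM paw G := (sub_paw _ G p a l rfl h).itm

end Lolli

end Pool.Agent.U388.ITM
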